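import Pool.Agent.Helper61.SS.Defs

/-!
# Project SS (MP_552bae_an): goals (packets), with proofs

For a Banach algebra `B` write `B⁺ = Unitization ℂ B`, `J(B) = {x ∈ B : x ∈ Ring.jacobson B⁺}`, and
`ρ(x) = spectralRadius ℂ (x : B⁺)`.  `a ⊗ b` stands for `j a b`.
-/

set_option autoImplicit false

namespace Pool.Agent.Helper61.SS

open TensorProduct Filter Topology

universe u v w x

/-! ## A. the tensor product -/

/-- (EXT) universal property.  `lift β` is bounded by `‖β‖ * pn` on the algebraic tensor product (from any representation,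
then the infimum), `pn t = ‖lift j t‖`; extend from the dense range: `LinearMap.extendOfNorm` and `LinearMap.extendOfNorm_eq`
(`Mathlib/Analysis/Normed/Operator/Extend.lean`). -/
def G_EXT : Prop := ∀ (A : Type u) (B : Type v) (C : Type w) (Z : Type x)
  [NonUnitalNormedRing A] [NormedSpace ℂ A] [NonUnitalNormedRing B] [NormedSpace ℂ B]
  [NonUnitalNormedRing C] [NormedSpace ℂ C] [NormedAddCommGroup Z] [NormedSpace ℂ Z] [CompleteSpace Z]
  (j : A →ₗ[ℂ] B →ₗ[ℂ] C), IsProj A B C j → ∀ β : A →L[ℂ] B →L[ℂ] Z, ∃ L : C →L[ℂ] Z,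
  ∀ a b, L (j a b) = β a b

/-- (CROSS), from EXT.  `≤`: the representation with one term.  `≥`: if `a, b ≠ 0` take functionals `f, g` of norm one with `f a = ‖a‖`,
`g b = ‖b‖` (`exists_dual_vector`), `β = f ⊗ g`; on the algebraic tensor product `‖lift β t‖ ≤ pn t = ‖lift j t‖`; so
`‖a‖ ‖b‖ = |β a b| ≤ ‖j a b‖`.  (EXT is not needed: `lift j (a ⊗ₜ b) = j a b`, and for every representation `∑ a_i ⊗ b_i` of `a ⊗ₜ b`:
`‖a‖ ‖b‖ = |∑ f (a_i) g (b_i)| ≤ ∑ ‖a_i‖ ‖b_i‖`.) -/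
def G_CROSS : Prop := ∀ (A : Type u) (B : Type v) (C : Type w)
  [NonUnitalNormedRing A] [NormedSpace ℂ A] [NonUnitalNormedRing B] [NormedSpace ℂ B]
  [NonUnitalNormedRing C] [NormedSpace ℂ C]
  (j : A →ₗ[ℂ] B →ₗ[ℂ] C), IsProj A B C j → ∀ a b, ‖j a b‖ = ‖a‖ * ‖b‖

/-- (REP) absolutely convergent representations.  CLAIM: for `c ∈ C` and `δ > 0` there are `n`, `a, b : Fin n → _` with `‖c - ∑ a_i ⊗ b_i‖ < δ` and
`∑ ‖a_i‖ ‖b_i‖ < ‖c‖ + 2 δ` (density, `IsProj.norm`, definition of the infimum).  So `c = ∑_k c_k`, `c_k = ∑_i a_ki ⊗ b_ki` (finite sums),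
`∑_i ‖a_ki‖ ‖b_ki‖ ≤ M 4^(-k)` (iterate with `δ_k = 4^(-k-2)`).  Rescale each term: `‖a_ki‖ ≤ 2^(-k)`, `∑_i ‖b_ki‖ ≤ M' 2^(-k)` (if `a_ki ≠ 0` replace
`(a, b)` by `(s a, s⁻¹ b)`, `s = 2^(-k)/‖a‖`; if `a_ki = 0` take `b = 0`).  Enumerate the pairs `(k, i)` by `ℕ` block after block
(or: reindex the countable type `Σ k, Fin (n k)`, which may be made infinite by adding zero terms, by an equivalence with `ℕ`); then
`a → 0` (cofinitely) and `∑ ‖b‖ < ∞`, and the sum converges absolutely (`‖j a b‖ ≤ ‖a‖ ‖b‖`) to `c`. -/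
def G_REP : Prop := ∀ (A : Type u) (B : Type v) (C : Type w)
  [NonUnitalNormedRing A] [NormedSpace ℂ A] [NonUnitalNormedRing B] [NormedSpace ℂ B]
  [NonUnitalNormedRing C] [NormedSpace ℂ C] [CompleteSpace C]
  (j : A →ₗ[ℂ] B →ₗ[ℂ] C), IsProj A B C j → ∀ c : C, ∃ (a : ℕ → A) (b : ℕ → B),
  Tendsto a atTop (𝓝 0) ∧ (Summable fun n => ‖b n‖) ∧ HasSum (fun n => j (a n) (b n)) c

/-- (SLI), from REP, EXT.  Let `u = ∑ a_n ⊗ b_n` as in REP, `K = {a_n} ∪ {0}` compact (`Filter.Tendsto.isCompact_insert_range`).  For `ε > 0` let `S` be of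
finite rank, `‖S a_n - a_n‖ ≤ ε`.  Let `S x = ∑_i f_i x • s_i` (basis of the range, `f_i` continuous functionals: coordinates composed
with `S`; finite dimensional).  `∑_n (S a_n) ⊗ b_n = ∑_i s_i ⊗ (∑_n f_i (a_n) b_n) = ∑_i s_i ⊗ L_{f_i} u = 0`, where `L_f` is the map of EXT for `β a b = f a • b`
(it is what the hypothesis gives; by density it does not depend on the choice: `hL`).  So `‖u‖ = ‖∑ (a_n - S a_n) ⊗ b_n‖ ≤ ε ∑ ‖b_n‖`. -/
def G_SLI : Prop := G_REP.{u, v, w} → ∀ (A : Type u) (B : Type v) (C : Type w)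
  [NonUnitalNormedRing A] [NormedSpace ℂ A] [NonUnitalNormedRing B] [NormedSpace ℂ B] [CompleteSpace B]
  [NonUnitalNormedRing C] [NormedSpace ℂ C] [CompleteSpace C]
  (j : A →ₗ[ℂ] B →ₗ[ℂ] C), IsProj A B C j → AP A → ∀ u : C,
  (∀ (f : A →L[ℂ] ℂ) (L : C →L[ℂ] B), (∀ a b, L (j a b) = f a • b) → L u = 0) → u = 0

/-- (EXI) existence.  `Bil = A →L[ℂ] B →L[ℂ] ℂ`, `D = Bil →L[ℂ] ℂ` with the product `(F G)(β) = F ((a, b) ↦ G ((a', b') ↦ β (a a') (b b')))`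
(bounded by `‖F‖ ‖G‖`, associative, bilinear); `j a b = (β ↦ β a b)`; `C` = closure of the span of the `j a b`, a closed subalgebra.
Norm: `‖lift j t‖ ≤ pn t` is clear; conversely `pn` is a seminorm on `A ⊗ B` and by Hahn-Banach there is a linear functional `ℓ` with
`|ℓ| ≤ pn` and `ℓ t = pn t` (e.g. make `A ⊗ B` a `SeminormedAddCommGroup` with the norm `pn` and use Mathlib's Hahn-Banach theorem for seminormed
spaces, or the real one); `β a b = ℓ (a ⊗ₜ b)` has norm `≤ 1`, so `pn t = ℓ t = (lift j t) β ≤ ‖lift j t‖`.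
Any other construction of `C` is fine. -/
def G_EXI : Prop := ∀ (A : Type u) (B : Type v)
  [NonUnitalNormedRing A] [NormedSpace ℂ A] [IsScalarTower ℂ A A] [SMulCommClass ℂ A A] [CompleteSpace A]
  [NonUnitalNormedRing B] [NormedSpace ℂ B] [IsScalarTower ℂ B B] [SMulCommClass ℂ B B] [CompleteSpace B],
  ∃ (C : Type (max u v)) (_ : NonUnitalNormedRing C) (_ : NormedSpace ℂ C) (_ : IsScalarTower ℂ C C)
    (_ : SMulCommClass ℂ C C) (_ : CompleteSpace C) (j : A →ₗ[ℂ] B →ₗ[ℂ] C), IsProj A B C j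

/-! ## B. radicals -/

/-- (SR1).  `ρ(t) ≤ ε`: if `|λ| > ε` then `λ - (t - w)` is a unit of `C⁺` (Neumann series in `WithLp 1 (Unitization ℂ C)`, or
`spectrum.norm_le_norm_mul_of_mem`; the norm of `t - w` there is `‖t - w‖ ≤ ε`, see `Mathlib/Analysis/Normed/Algebra/UnitizationL1.lean`), and
`λ - t = (λ - (t - w)) (1 - (λ - (t - w))⁻¹ w)`, where the second factor is a unit as `w` is in the radical (two-sided ideal; an element
`1 - r`, `r` in the radical, is a unit). -/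
def G_SR1 : Prop := ∀ (C : Type w) [NonUnitalNormedRing C] [NormedSpace ℂ C] [IsScalarTower ℂ C C]
  [SMulCommClass ℂ C C] [CompleteSpace C] (t w : C) (ε : ℝ), 0 ≤ ε →
  (w : Unitization ℂ C) ∈ Ring.jacobson (Unitization ℂ C) → ‖t - w‖ ≤ ε →
  spectralRadius ℂ (t : Unitization ℂ C) ≤ ENNReal.ofReal ε

/-- (SR2).  Gelfand's formula (`spectrum.pow_nnnorm_pow_one_div_tendsto_nhds_spectralRadius`) in `WithLp 1 (Unitization ℂ B)`
(`UnitizationL1.lean`; the algebra equivalence with `Unitization ℂ B` keeps the spectrum); `(x : B⁺) ^ (n + 1) = (pw x n : B⁺)`, norm `‖pw x n‖`. -/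
def G_SR2 : Prop := ∀ (B : Type v) (C : Type w) [NonUnitalNormedRing B] [NormedSpace ℂ B] [IsScalarTower ℂ B B]
  [SMulCommClass ℂ B B] [CompleteSpace B] [NonUnitalNormedRing C] [NormedSpace ℂ C] [IsScalarTower ℂ C C]
  [SMulCommClass ℂ C C] [CompleteSpace C] (z : B) (t : C), (∀ n, ‖pw t n‖ = ‖pw z n‖) →
  spectralRadius ℂ (t : Unitization ℂ C) = spectralRadius ℂ (z : Unitization ℂ B)

/-- (QN).  `x ∈ J(B)` if `ρ(b x b') = 0` for all `b, b' ∈ B`.  Use `Ideal.jacobson_bot` (or similar) and `Ideal.mem_jacobson_iff`: let `y ∈ B⁺`, `m = y x ∈ B`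
(the snd component; `B` is an ideal of `B⁺`).  `m^4 = (y x y) x (y x y x) = b x b'` with `b, b' ∈ B`, so the spectrum of `m^4` is
contained in `{0}`, `1 - m^4` is a unit, and `1 - m^4 = (1 - m + m² - m³) (1 + m)`, so `1 + m = 1 + y x` has a left inverse `z`:
`z * y * x + z - 1 = 0`. -/
def G_QN : Prop := ∀ (B : Type v) [NonUnitalNormedRing B] [NormedSpace ℂ B] [IsScalarTower ℂ B B]
  [SMulCommClass ℂ B B] [CompleteSpace B] (x : B),
  (∀ b b' : B, spectralRadius ℂ ((b * x * b' : B) : Unitization ℂ B) = 0) →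
  (x : Unitization ℂ B) ∈ Ring.jacobson (Unitization ℂ B)

/-! ## C. the forward direction -/

/-- (KEY), from CROSS, SR1, SR2, QN: slices of the radical by excisable functionals are in the radical.  Let `L u = z`.  By QN it suffices that
`ρ(b z b') = 0` for `b, b' ∈ B`.  Let `δ > 0`.  Choose a finite sum `t₀ = ∑_{i<n} a_i ⊗ b_i` with `‖u - t₀‖ ≤ δ` (density: `lift j`, every element of `A ⊗ B` is
a finite sum), and `c` (`Excisable`) self-adjoint, `‖c‖ = 1`, with `‖c a_i c - φ(a_i) c c‖ ≤ δ'`, `δ' (1 + ∑ ‖b‖ ‖b_i‖ ‖b'‖) ≤ δ`.  Then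
`(c ⊗ b) t₀ (c ⊗ b') - c c ⊗ (b (L t₀) b') = ∑_i (c a_i c - φ(a_i) c c) ⊗ (b b_i b')` has norm `≤ δ`, and so
`‖(c ⊗ b) u (c ⊗ b') - c c ⊗ (b z b')‖ ≤ δ + ‖b‖ ‖b'‖ δ + ‖b‖ ‖L‖ δ ‖b'‖ =: M δ`.  `w = (c ⊗ b) u (c ⊗ b')` is in `J(C)` (two-sided ideal).  By SR1
`ρ(c c ⊗ b z b') ≤ M δ`, and by SR2 this is `ρ(b z b')`: `pw (cc ⊗ q) n = pw (cc) n ⊗ pw q n`, and `‖pw (c c) n‖ = 1` (`c` self-adjoint of norm one:
`‖c^(2^m)‖ = 1`, and the norms `‖c^k‖ ≤ 1` decrease).  `δ` is arbitrary. -/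
def G_KEY : Prop := G_CROSS.{u, v, w} → G_SR1.{w} → G_SR2.{v, w} → G_QN.{v} → ∀ (A : Type u) (B : Type v) (C : Type w)
  [NonUnitalCStarAlgebra A] [NonUnitalNormedRing B] [NormedSpace ℂ B] [IsScalarTower ℂ B B]
  [SMulCommClass ℂ B B] [CompleteSpace B] [NonUnitalNormedRing C] [NormedSpace ℂ C] [IsScalarTower ℂ C C]
  [SMulCommClass ℂ C C] [CompleteSpace C]
  (j : A →ₗ[ℂ] B →ₗ[ℂ] C), IsProj A B C j → ∀ (φ : A →L[ℂ] ℂ), Excisable φ →
  ∀ (L : C →L[ℂ] B), (∀ a b, L (j a b) = φ a • b) → ∀ u : C,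
  (u : Unitization ℂ C) ∈ Ring.jacobson (Unitization ℂ C) →
  ((L u : B) : Unitization ℂ B) ∈ Ring.jacobson (Unitization ℂ B)

/-- (FWD), from KEY, EXT, SLI.  Let `u ∈ J(C)`.  For excisable `φ`: `L_φ u ∈ J(B)`, so `L_φ u = 0`.  For `g ∈ B*` let `R_g : C → A` be the map of EXT for
`β a b = g b • a`; `φ (R_g u) = g (L_φ u) = 0` (both sides are continuous in `u` and agree on the dense range) for all excisable `φ`, so `R_g u = 0`
(`exists_excisable`).  For `f ∈ A*`: `g (L_f u) = f (R_g u) = 0` for all `g`, so `L_f u = 0` (Hahn-Banach), and SLI gives `u = 0`. -/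
def G_FWD : Prop := G_KEY.{u, v, w} → G_CROSS.{u, v, w} → G_SR1.{w} → G_SR2.{v, w} → G_QN.{v} →
  G_EXT.{u, v, w, u} → G_EXT.{u, v, w, v} → G_REP.{u, v, w} → G_SLI.{u, v, w} →
  ∀ (A : Type u) (B : Type v) (C : Type w)
  [NonUnitalCStarAlgebra A] [NonUnitalNormedRing B] [NormedSpace ℂ B] [IsScalarTower ℂ B B]
  [SMulCommClass ℂ B B] [CompleteSpace B] [NonUnitalNormedRing C] [NormedSpace ℂ C] [IsScalarTower ℂ C C]
  [SMulCommClass ℂ C C] [CompleteSpace C]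
  (j : A →ₗ[ℂ] B →ₗ[ℂ] C), IsProj A B C j → AP A → Semisimple B → Semisimple C

/-! ## D. the converse -/

/-- (HULL).  A compact set is contained in the closed absolutely convex hull of a null sequence.  Standard: put `K_0 = 2K`; given the compact
set `K_n` (scaled so that it is in the ball of radius `4^(-n) M`) choose a finite `4^(-n-1)`-net `F_n` of `K_n`, `K_(n+1) = (K_n - F_n) ∩` (ball of radius `4^(-n-1)`),
which is compact; then `x ∈ K` is `∑_n 2^(-n-1) (2^n y_n)`, `y_n ∈ F_n` (up to the scaling), and the sequence which lists the finite sets `2^n F_n` one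
after the other tends to zero.  The statement here: every `x ∈ K` is a sum `∑_k λ_k x_k` with `∑ |λ_k| ≤ 1`. -/
def G_HULL : Prop := ∀ (A : Type u) [NormedAddCommGroup A] [NormedSpace ℂ A] [CompleteSpace A] (K : Set A),
  IsCompact K → ∃ x : ℕ → A, Tendsto x atTop (𝓝 0) ∧ ∀ y ∈ K, ∃ l : ℕ → ℂ, (Summable fun k => ‖l k‖) ∧
    ∑' k, ‖l k‖ ≤ 1 ∧ HasSum (fun k => l k • x k) y

/-- (APT), from HULL.  Let `K`, `ε` be a counterexample to AP, `(x_k)` from HULL.  For every `S` of finite rank there is `k` with `‖S x_k - x_k‖ > ε / 2` (otherwise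
`‖S y - y‖ ≤ ε/2` on `K`).  In the Banach space `c₀(ℕ, A)` (e.g. `ZeroAtInftyContinuousMap ℕ A`, or the closed subspace of the
null sequences in `BoundedContinuousFunction`, or `lp (fun _ => A) ∞`) the sequences `(S x_k)_k`, `S` of finite rank, form a
subspace of distance `≥ ε / 2` from `(x_k)_k`; Hahn-Banach: a functional `Ψ` which vanishes on it, `Ψ ((x_k)) = 1`.  `f_k y = Ψ (single k y)`; `∑ ‖f_k‖ ≤ ‖Ψ‖`
(finite sums, choose `y_k` of norm `≤ 1` with `f_k y_k` real, close to `‖f_k‖`), `Ψ ((y_k)) = ∑ f_k (y_k)` for null sequences.  For `S = g ⊗ y`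
(`g ∈ A*`, `y ∈ A`): `0 = ∑ f_k (g (x_k) y) = g (∑ f_k y • x_k)`, for all `g`, so `∑ f_k y • x_k = 0`. -/
def G_APT : Prop := G_HULL.{u} → ∀ (A : Type u) [NormedAddCommGroup A] [NormedSpace ℂ A] [CompleteSpace A],
  ¬ AP A → TRF A

/-- (CONV) (helper44).  `x_k`, `f_k` as in TRF; `Y` = closed span of the `f_k` in `A*` (separable), `g_i` in the unit ball of `Y*` separating the points of `Y`,
`Q : Y → ℓ²(ℕ × ℕ)`, `Q(f)_(i,m) = 2^(-i) g_i(f)/(m+1)`; `Q(Y) ∩ ℓ¹ = 0`, `Q(Y) Q(Y) ⊆ ℓ¹`.  `B = Y ⊕ ℓ¹(ℕ × ℕ)` with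
`(f,s)(g,t) = (0, QfQg + Qf t + s Qg + st)`, a commutative Banach algebra (for an equivalent norm), semisimple (its elements are
the functions `Qf + s` on `ℕ × ℕ`).  `u = ∑ x_k ⊗ (f_k, 0)` is not zero (bounded bilinear form `(a, (f, s)) ↦ f a`), but `c u = 0` for all `c ∈ C`:
`(a ⊗ (g,t)) u = ∑ a x_k ⊗ (0, (Qg + t) Qf_k)`, and `∑ a x_k ⊗ (h Qf_k)`, `h = Qg + t`, is zero: the subspace `0 ⊕ ℓ¹` is complemented, elements of
`A ⊗^ ℓ¹` are determined by their coordinates in `A`, which are multiples of `∑ g_i(f_k) a x_k = 0` (`∑ G(f_k) x_k = 0` for all `G ∈ A**`, as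
`φ (∑ G(f_k) x_k) = G (∑ φ(x_k) f_k)` and `∑ φ(x_k) f_k = 0` by TRF).  So `ℂ u` is a left ideal of `C` of square zero, `u ∈ J(C)`. -/
def G_CONV : Prop := G_REP.{u, u, u} → G_EXT.{u, u, u, u} → ∀ (A : Type u)
  [NonUnitalNormedRing A] [NormedSpace ℂ A] [IsScalarTower ℂ A A] [SMulCommClass ℂ A A] [CompleteSpace A],
  TRF A → ∃ (B : Type u) (_ : NonUnitalNormedCommRing B) (_ : NormedSpace ℂ B) (_ : IsScalarTower ℂ B B)
    (_ : SMulCommClass ℂ B B) (_ : CompleteSpace B), Semisimple B ∧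
    ∀ (C : Type u) [NonUnitalNormedRing C] [NormedSpace ℂ C] [IsScalarTower ℂ C C]
      [SMulCommClass ℂ C C] [CompleteSpace C] (j : A →ₗ[ℂ] B →ₗ[ℂ] C), IsProj A B C j → ¬ Semisimple C

/-! ## E. the theorem -/

/-- the main theorem -/
def G_MAIN : Prop := ∀ (A : Type u) [NonUnitalCStarAlgebra A],
  (AP A → ∀ (B : Type u) [NonUnitalNormedRing B] [NormedSpace ℂ B] [IsScalarTower ℂ B B] [SMulCommClass ℂ B B]
    [CompleteSpace B], Semisimple B → ∀ (C : Type u) [NonUnitalNormedRing C] [NormedSpace ℂ C]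
    [IsScalarTower ℂ C C] [SMulCommClass ℂ C C] [CompleteSpace C] (j : A →ₗ[ℂ] B →ₗ[ℂ] C),
    IsProj A B C j → Semisimple C) ∧
  (¬ AP A → ∃ (B : Type u) (_ : NonUnitalNormedCommRing B) (_ : NormedSpace ℂ B) (_ : IsScalarTower ℂ B B)
    (_ : SMulCommClass ℂ B B) (_ : CompleteSpace B), Semisimple B ∧
    ∀ (C : Type u) [NonUnitalNormedRing C] [NormedSpace ℂ C] [IsScalarTower ℂ C C]
      [SMulCommClass ℂ C C] [CompleteSpace C] (j : A →ₗ[ℂ] B →ₗ[ℂ] C), IsProj A B C j → ¬ Semisimple C) ∧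
  ∀ (B : Type u) [NonUnitalNormedRing B] [NormedSpace ℂ B] [IsScalarTower ℂ B B] [SMulCommClass ℂ B B]
    [CompleteSpace B], ∃ (C : Type u) (_ : NonUnitalNormedRing C) (_ : NormedSpace ℂ C)
    (_ : IsScalarTower ℂ C C) (_ : SMulCommClass ℂ C C) (_ : CompleteSpace C)
    (j : A →ₗ[ℂ] B →ₗ[ℂ] C), IsProj A B C j

end Pool.Agent.Helper61.SS
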