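import Pool.Agent.Helper57.SS.Goals2

/-!
# K2: the kernel of the conditional measures on the invariant sets
-/

set_option autoImplicit false

namespace Pool.Agent.Helper61.SS

open MeasureTheory ProbabilityTheory Filter Topology
open Pool.Agent.Helper57.SS

/-- (K2), the kernel. -/
theorem gK2 : G_K2 := by
  intro X _ _ ν _ T hT
  have hle := MeasurableSpace.invariants_le T
  have h1 : ∀ u, IsProbabilityMeasure (kap ν T u) := fun u => by
    unfold kap
    infer_instance
  have hI : ∀ F : X → ℝ, Bd F → Integrable F ν := fun F hF =>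
    Integrable.of_bound hF.1.aestronglyMeasurable 1 (ae_of_all _ fun x => by
      rw [Real.norm_eq_abs]
      exact hF.2 x)
  have hIk : ∀ F : X → ℝ, Bd F → ∀ u, Integrable F (kap ν T u) := fun F hF u => by
    have := h1 u
    exact Integrable.of_bound hF.1.aestronglyMeasurable 1 (ae_of_all _ fun x => by
      rw [Real.norm_eq_abs]
      exact hF.2 x)
  have h2 : ∀ F : X → ℝ, Bd F →
      Measurable[MeasurableSpace.invariants T] (fun u => ∫ x, F x ∂(kap ν T u)) := fun F hF =>
    (hF.1.stronglyMeasurable.integral_condExpKernel (m := MeasurableSpace.invariants T)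
      (μ := ν)).measurable
  have h3 : ∀ F : X → ℝ, Bd F →
      ν[F | MeasurableSpace.invariants T] =ᵐ[ν] fun u => ∫ x, F x ∂(kap ν T u) := fun F hF =>
    condExp_ae_eq_integral_condExpKernel hle (hI F hF)
  have hb : ∀ F : X → ℝ, Bd F → Bd (fun u => ∫ x, F x ∂(kap ν T u)) := fun F hF => by
    refine ⟨(h2 F hF).mono hle le_rfl, fun u => ?_⟩
    have := h1 u
    have h := norm_integral_le_of_norm_le_const (μ := kap ν T u) (f := F) (C := 1)
      (ae_of_all _ fun x => by
        rw [Real.norm_eq_abs]
        exact hF.2 x)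
    rw [Real.norm_eq_abs] at h
    simpa using h
  refine ⟨h1, h2, h3, fun F hF => ?_, fun F hF => ?_, fun p hp => ?_⟩
  · rw [← integral_condExp hle, integral_congr_ae (h3 F hF)]
  · have hψ := hb F hF
    have hψm := h2 F hF
    have h3a := h3 F hF
    set ψ : X → ℝ := fun u => ∫ x, F x ∂(kap ν T u) with hψdef
    have hψ2 : Bd (fun u => ψ u ^ 2) := by
      refine ⟨hψ.1.pow_const 2, fun u => ?_⟩
      have h := hψ.2 u
      rw [abs_pow]
      exact pow_le_one₀ (abs_nonneg _) h
    have e1 : ν[ψ | MeasurableSpace.invariants T] = ψ :=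
      condExp_of_stronglyMeasurable hle hψm.stronglyMeasurable (hI ψ hψ)
    have e2 : ν[(fun u => ψ u ^ 2) | MeasurableSpace.invariants T] = fun u => ψ u ^ 2 :=
      condExp_of_stronglyMeasurable hle (hψm.pow_const 2).stronglyMeasurable (hI _ hψ2)
    have f1 := h3 ψ hψ
    have f2 := h3 _ hψ2
    rw [e1] at f1
    rw [e2] at f2
    filter_upwards [f1, f2] with u g1 g2
    have hpu := h1 u
    have k0 : ∫ v, (ψ v - ψ u) ^ 2 ∂(kap ν T u) = 0 := by
      have i1 := hIk ψ hψ u
      have i2 := hIk _ hψ2 u
      have k1 : ∫ v, (ψ v - ψ u) ^ 2 ∂(kap ν T u) =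
          ∫ v, (ψ v ^ 2 - 2 * ψ u * ψ v + ψ u ^ 2) ∂(kap ν T u) := by
        congr 1
        funext v
        ring
      have i3 : Integrable (fun v => ψ v ^ 2 - 2 * ψ u * ψ v) (kap ν T u) :=
        i2.sub (i1.const_mul _)
      rw [k1, integral_add i3 (integrable_const _),
        integral_sub i2 (i1.const_mul _), integral_const_mul, ← g1, ← g2, integral_const]
      simp
      ring
    have k2 : Integrable (fun v => (ψ v - ψ u) ^ 2) (kap ν T u) := by
      have i1 := hIk ψ hψ u
      have i2 := hIk _ hψ2 u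
      have k1 : (fun v => (ψ v - ψ u) ^ 2) = fun v => (ψ v ^ 2 - 2 * ψ u * ψ v + ψ u ^ 2) := by
        funext v
        ring
      rw [k1]
      exact (i2.sub (i1.const_mul _)).add (integrable_const _)
    have k3 := (integral_eq_zero_iff_of_nonneg (fun v => sq_nonneg (ψ v - ψ u)) k2).1 k0
    filter_upwards [k3] with v hv
    have hv' : (ψ v - ψ u) ^ 2 = 0 := hv
    have : ψ v - ψ u = 0 := by
      rcases sq_eq_zero_iff.1 hv' with h
      exact h
    linarith
  · have h := condExpKernel_comp_trim (μ := ν) hle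
    have hp' : ∀ᵐ x ∂(condExpKernel ν (MeasurableSpace.invariants T) ∘ₘ ν.trim hle), p x := by
      rw [h]
      exact hp
    have h6 := Measure.ae_ae_of_ae_comp hp'
    exact ae_of_ae_trim hle h6

end Pool.Agent.Helper61.SS
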