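import Pool.Agent.Helper57.SS.Goals2

/-!
# K3: the conditional measures are invariant
-/

set_option autoImplicit false

namespace Pool.Agent.Helper61.SS

open MeasureTheory ProbabilityTheory Filter Topology
open Pool.Agent.Helper57.SS

/-- (K3), the conditional measures are invariant. -/
theorem gK3 : G_K3 := by
  intro hK2 X mX _ ν _ T hT
  obtain ⟨h1, h2, h3, h4, h5, h6⟩ := hK2 X ν T hT
  have hle := MeasurableSpace.invariants_le T
  have hTm := hT.measurable
  -- the indicator functions
  have hind : ∀ A : Set X, MeasurableSet A → Bd (A.indicator fun _ => (1 : ℝ)) := fun A hA => by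
    refine ⟨measurable_const.indicator hA, fun x => ?_⟩
    by_cases hx : x ∈ A <;> simp [hx]
  have hII : ∀ A : Set X, MeasurableSet A → Integrable (A.indicator fun _ => (1 : ℝ)) ν :=
    fun A hA => (integrable_const _).indicator hA
  have key : ∀ A, MeasurableSet A → ∀ᵐ u ∂ν, kap ν T u (T ⁻¹' A) = kap ν T u A := by
    intro A hA
    have hTA : MeasurableSet (T ⁻¹' A) := hTm hA
    have e1 : ν[((T ⁻¹' A).indicator fun _ => (1 : ℝ)) | MeasurableSpace.invariants T] =ᵐ[ν]
        ν[(A.indicator fun _ => (1 : ℝ)) | MeasurableSpace.invariants T] := by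
      refine ae_eq_condExp_of_forall_setIntegral_eq hle (hII A hA)
        (fun s _ _ => integrable_condExp.integrableOn) (fun B hB _ => ?_)
        stronglyMeasurable_condExp.aestronglyMeasurable
      rw [setIntegral_condExp hle (hII _ hTA) hB]
      have hB' := MeasurableSpace.measurableSet_invariants.1 hB
      rw [setIntegral_indicator hTA, setIntegral_indicator hA]
      have h7 : B ∩ T ⁻¹' A = T ⁻¹' (B ∩ A) := by
        rw [Set.preimage_inter, hB'.2]
      rw [h7]
      simp only [integral_const, smul_eq_mul, mul_one, measureReal_restrict_apply_univ]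
      exact hT.measureReal_preimage (hB'.1.inter hA).nullMeasurableSet
    have f1 := h3 _ (hind _ hTA)
    have f2 := h3 _ (hind _ hA)
    filter_upwards [e1, f1, f2] with u g0 g1 g2
    have := h1 u
    rw [g1, g2, integral_indicator hTA, integral_indicator hA] at g0
    simp only [integral_const, smul_eq_mul, mul_one, measureReal_restrict_apply_univ] at g0
    exact (measureReal_eq_measureReal_iff).1 g0
  have hc : (generateSetAlgebra (MeasurableSpace.countableGeneratingSet X)).Countable :=
    countable_generateSetAlgebra MeasurableSpace.countable_countableGeneratingSet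
  have hgen : mX = MeasurableSpace.generateFrom
      (generateSetAlgebra (MeasurableSpace.countableGeneratingSet X)) := by
    rw [generateFrom_generateSetAlgebra_eq, MeasurableSpace.generateFrom_countableGeneratingSet]
  have hA : ∀ A ∈ generateSetAlgebra (MeasurableSpace.countableGeneratingSet X),
      MeasurableSet A := by
    intro A hA
    rw [hgen]
    exact MeasurableSpace.measurableSet_generateFrom hA
  have all : ∀ᵐ u ∂ν, ∀ A ∈ generateSetAlgebra (MeasurableSpace.countableGeneratingSet X),
      kap ν T u (T ⁻¹' A) = kap ν T u A := by
    rw [ae_ball_iff hc]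
    intro A h
    exact key A (hA A h)
  filter_upwards [all] with u hu
  have := h1 u
  refine ⟨hTm, ?_⟩
  have hpT : IsProbabilityMeasure ((kap ν T u).map T) :=
    Measure.isProbabilityMeasure_map hTm.aemeasurable
  refine ext_of_generate_finite _ hgen ?_ (fun A h => ?_) ?_
  · intro A h B h' _
    exact isSetAlgebra_generateSetAlgebra.inter_mem h h'
  · rw [Measure.map_apply hTm (hA A h)]
    exact hu A h
  · simp

end Pool.Agent.Helper61.SS
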