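import Pool.Agent.Helper61.SS.Main
import Pool.Agent.Helper35.SS.SLI
import Pool.Agent.Helper35.SS.EXI
import Pool.Agent.Helper74.SS.SR2
import Pool.Agent.Helper44.SS.Conv
import Mathlib

/-!
# Project SS (MP_552bae_an): complements
C*-algebras are semisimple; the slices of the radical vanish; the approximation property of the second
factor; the completely positive approximation property.
-/

set_option autoImplicit false

namespace Pool.Agent.Helper61.SS

open TensorProduct Filter Topology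
open scoped CStarAlgebra ComplexOrder

universe u v w x

/-- C*-algebras are semisimple. -/
theorem cstar_semisimple (B : Type u) [NonUnitalCStarAlgebra B] : Semisimple B := by
  intro x hx
  have h1 : ((star x * x : B) : Unitization ℂ B) ∈ Ring.jacobson (Unitization ℂ B) := by
    rw [Unitization.inr_mul]
    exact Ideal.mul_mem_left _ _ hx
  have h2 : spectralRadius ℂ ((star x * x : B) : Unitization ℂ B) ≤ ENNReal.ofReal 0 :=
    Helper83.SS.gSR1 B (star x * x) (star x * x) 0 le_rfl h1 (by simp)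
  have h3 : IsSelfAdjoint ((star x * x : B) : Unitization ℂ B) := by
    rw [Unitization.inr_mul, Unitization.inr_star]
    exact IsSelfAdjoint.star_mul_self _
  rw [h3.spectralRadius_eq_nnnorm, ENNReal.ofReal_zero, nonpos_iff_eq_zero, ENNReal.coe_eq_zero,
    nnnorm_eq_zero] at h2
  have h4 : star x * x = 0 := Unitization.inr_injective (R := ℂ) (by simpa using h2)
  exact CStarRing.star_mul_self_eq_zero_iff x |>.mp h4

/-- The slices of the radical of the tensor product are zero. -/
theorem rad_slices {A : Type u} {B : Type v} {C : Type w}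
    [NonUnitalCStarAlgebra A] [NonUnitalNormedRing B] [NormedSpace ℂ B] [IsScalarTower ℂ B B]
    [SMulCommClass ℂ B B] [CompleteSpace B] [NonUnitalNormedRing C] [NormedSpace ℂ C]
    [IsScalarTower ℂ C C] [SMulCommClass ℂ C C] [CompleteSpace C]
    {j : A →ₗ[ℂ] B →ₗ[ℂ] C} (hj : IsProj A B C j) (hB : Semisimple B) {u : C}
    (hu : (u : Unitization ℂ C) ∈ Ring.jacobson (Unitization ℂ C))
    (g : B →L[ℂ] ℂ) (R : C →L[ℂ] A) (hR : ∀ a b, R (j a b) = g b • a) : R u = 0 := by
  by_contra hne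
  obtain ⟨φ, hφ, hφ0⟩ := exists_excisable hne
  obtain ⟨L, hL⟩ := Helper96.SS.gEXT A B C B j hj (φ.smulRight (ContinuousLinearMap.id ℂ B))
  have hL' : ∀ a b, L (j a b) = φ a • b := by
    intro a b
    rw [hL]
    simp
  have h0 : L u = 0 := hB _ (Helper9.SS.gKEY Helper91.SS.gCROSS Helper83.SS.gSR1
    Helper74.SS.gSR2 Helper8.SS.gQN A B C j hj φ hφ L hL' u hu)
  apply hφ0
  have := Helper56.SS.clm_ext hj (φ.comp R) (g.comp L) (fun a b => by
    simp only [ContinuousLinearMap.comp_apply, hR, hL', map_smul, smul_eq_mul]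
    ring) u
  simp only [ContinuousLinearMap.comp_apply] at this
  rw [this, h0, map_zero]

/-- The products of functionals vanish on the radical. -/
theorem rad_prod {A : Type u} {B : Type v} {C : Type w}
    [NonUnitalCStarAlgebra A] [NonUnitalNormedRing B] [NormedSpace ℂ B] [IsScalarTower ℂ B B]
    [SMulCommClass ℂ B B] [CompleteSpace B] [NonUnitalNormedRing C] [NormedSpace ℂ C]
    [IsScalarTower ℂ C C] [SMulCommClass ℂ C C] [CompleteSpace C]
    {j : A →ₗ[ℂ] B →ₗ[ℂ] C} (hj : IsProj A B C j) (hB : Semisimple B) {u : C}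
    (hu : (u : Unitization ℂ C) ∈ Ring.jacobson (Unitization ℂ C))
    (f : A →L[ℂ] ℂ) (g : B →L[ℂ] ℂ) (F : C →L[ℂ] ℂ) (hF : ∀ a b, F (j a b) = f a * g b) :
    F u = 0 := by
  obtain ⟨R, hRR⟩ := Helper96.SS.gEXT A B C A j hj (ContinuousLinearMap.smulRightL ℂ B A g)
  have hR' : ∀ a b, R (j a b) = g b • a := by
    intro a b
    rw [hRR]
    simp
  have := Helper56.SS.clm_ext hj F (f.comp R) (fun a b => by
    simp only [ContinuousLinearMap.comp_apply, hF, hR', map_smul, smul_eq_mul]
    ring) u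
  simp only [ContinuousLinearMap.comp_apply] at this
  rw [this, rad_slices hj hB hu g R hR', map_zero]

/-- The flipped tensor product. -/
theorem pn_comm {A : Type u} {B : Type v} [NormedAddCommGroup A] [NormedSpace ℂ A]
    [NormedAddCommGroup B] [NormedSpace ℂ B] (t : A ⊗[ℂ] B) :
    pn (TensorProduct.comm ℂ A B t) = pn t := by
  unfold pn
  congr 1
  ext r
  constructor
  · rintro ⟨n, b, a, h, rfl⟩
    refine ⟨n, a, b, ?_, by simp only [mul_comm]⟩
    apply (TensorProduct.comm ℂ A B).injective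
    rw [h, map_sum]
    simp
  · rintro ⟨n, a, b, h, rfl⟩
    refine ⟨n, b, a, ?_, by simp only [mul_comm]⟩
    rw [h, map_sum]
    simp

theorem lift_flip {A : Type u} {B : Type v} {C : Type w}
    [NonUnitalNormedRing A] [NormedSpace ℂ A] [NonUnitalNormedRing B] [NormedSpace ℂ B]
    [NonUnitalNormedRing C] [NormedSpace ℂ C]
    (j : A →ₗ[ℂ] B →ₗ[ℂ] C) (t : A ⊗[ℂ] B) :
    TensorProduct.lift j.flip (TensorProduct.comm ℂ A B t) = TensorProduct.lift j t := by
  induction t using TensorProduct.induction_on with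
  | zero => simp
  | tmul a b => simp
  | add s t hs ht => simp only [map_add, hs, ht]

theorem isProj_flip {A : Type u} {B : Type v} {C : Type w}
    [NonUnitalNormedRing A] [NormedSpace ℂ A] [NonUnitalNormedRing B] [NormedSpace ℂ B]
    [NonUnitalNormedRing C] [NormedSpace ℂ C]
    {j : A →ₗ[ℂ] B →ₗ[ℂ] C} (hj : IsProj A B C j) : IsProj B A C j.flip := by
  refine ⟨?_, ?_, ?_⟩
  · intro b b' a a'
    simp only [LinearMap.flip_apply]
    exact hj.mul a a' b b'
  · intro t
    obtain ⟨s, rfl⟩ := (TensorProduct.comm ℂ A B).surjective t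
    rw [lift_flip, pn_comm, hj.norm]
  · refine hj.dense.mono ?_
    rintro _ ⟨s, rfl⟩
    exact ⟨TensorProduct.comm ℂ A B s, lift_flip j s⟩

theorem semisimple_of_AP {A : Type u} {B : Type v} {C : Type w}
    [NonUnitalCStarAlgebra A] [NonUnitalNormedRing B] [NormedSpace ℂ B] [IsScalarTower ℂ B B]
    [SMulCommClass ℂ B B] [CompleteSpace B] [NonUnitalNormedRing C] [NormedSpace ℂ C]
    [IsScalarTower ℂ C C] [SMulCommClass ℂ C C] [CompleteSpace C]
    {j : A →ₗ[ℂ] B →ₗ[ℂ] C} (hj : IsProj A B C j) (hB : Semisimple B) (h : AP A ∨ AP B) :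
    Semisimple C := by
  rcases h with h | h
  · exact Helper56.SS.gFWD Helper9.SS.gKEY Helper91.SS.gCROSS Helper83.SS.gSR1 Helper74.SS.gSR2
      Helper8.SS.gQN Helper96.SS.gEXT Helper96.SS.gEXT Helper14.SS.gREP Helper35.SS.gSLI A B C j
      hj h hB
  · intro u hu
    refine Helper35.SS.gSLI Helper14.SS.gREP B A C j.flip (isProj_flip hj) h u ?_
    intro g R hR
    exact rad_slices hj hB hu g R (fun a b => hR b a)

/-- The completely positive approximation property: the identity is approximated, on finite sets, by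
products of completely positive contractions through matrix algebras. -/
def CPAP (A : Type u) [NonUnitalCStarAlgebra A] [PartialOrder A] [StarOrderedRing A] : Prop :=
  ∀ (F : Finset A) (ε : ℝ), 0 < ε → ∃ (n : ℕ) (S : A →CP CStarMatrix (Fin n) (Fin n) ℂ)
    (T : CStarMatrix (Fin n) (Fin n) ℂ →CP A), (∀ a, ‖S a‖ ≤ ‖a‖) ∧ (∀ m, ‖T m‖ ≤ ‖m‖) ∧
    ∀ a ∈ F, ‖T (S a) - a‖ ≤ ε

/-- The completed projective tensor product of `A` and `B` exists. -/
def HasProj (A B : Type u) [NonUnitalNormedRing A] [NormedSpace ℂ A] [NonUnitalNormedRing B]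
    [NormedSpace ℂ B] : Prop :=
  ∃ (C : Type u) (_ : NonUnitalNormedRing C) (_ : NormedSpace ℂ C) (_ : IsScalarTower ℂ C C)
    (_ : SMulCommClass ℂ C C) (_ : CompleteSpace C) (j : A →ₗ[ℂ] B →ₗ[ℂ] C), IsProj A B C j

/-- The completed projective tensor product of `A` and `B` is semisimple. -/
def ProjSemisimple (A B : Type u) [NonUnitalNormedRing A] [NormedSpace ℂ A]
    [NonUnitalNormedRing B] [NormedSpace ℂ B] : Prop :=
  ∀ (C : Type u) [NonUnitalNormedRing C] [NormedSpace ℂ C] [IsScalarTower ℂ C C]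
    [SMulCommClass ℂ C C] [CompleteSpace C] (j : A →ₗ[ℂ] B →ₗ[ℂ] C),
    IsProj A B C j → Semisimple C

theorem cpap_ap (A : Type u) [NonUnitalCStarAlgebra A] [PartialOrder A] [StarOrderedRing A]
    (h : CPAP A) : AP A := by
  intro K hK ε hε
  obtain ⟨F, hFK, hF⟩ := hK.finite_cover_balls (e := ε / 3) (by positivity)
  obtain ⟨hfin, hcov⟩ := hF
  obtain ⟨n, S, T, hS, hT, hST⟩ := h hfin.toFinset (ε / 3) (by positivity)
  let P : A →ₗ[ℂ] A := T.toLinearMap.comp S.toLinearMap
  have hP : ∀ a, P a = T (S a) := fun a => rfl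
  have hPn : ∀ a, ‖P a‖ ≤ 1 * ‖a‖ := by
    intro a
    rw [hP, one_mul]
    exact (hT _).trans (hS a)
  refine ⟨P.mkContinuous 1 hPn, ?_, ?_⟩
  · have : FiniteDimensional ℂ (CStarMatrix (Fin n) (Fin n) ℂ) :=
      inferInstanceAs (FiniteDimensional ℂ (Matrix (Fin n) (Fin n) ℂ))
    have hle : LinearMap.range ((P.mkContinuous 1 hPn : A →L[ℂ] A) : A →ₗ[ℂ] A)
        ≤ LinearMap.range T.toLinearMap := by
      rintro _ ⟨a, rfl⟩
      exact ⟨S a, rfl⟩
    exact Submodule.finiteDimensional_of_le hle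
  · intro x hx
    obtain ⟨y, hyF, hxy⟩ := Set.mem_iUnion₂.mp (hcov hx)
    have hd : ‖x - y‖ ≤ ε / 3 := by
      rw [← dist_eq_norm]
      exact (Metric.mem_ball.mp hxy).le
    have h1 : ‖P y - y‖ ≤ ε / 3 := hST y (hfin.mem_toFinset.mpr hyF)
    have h2 : ‖P (x - y)‖ ≤ ε / 3 := (hPn _).trans (by rw [one_mul]; exact hd)
    have h3 : P x - x = P (x - y) + (P y - y) - (x - y) := by
      rw [map_sub]
      abel
    show ‖P x - x‖ ≤ ε
    rw [h3]
    calc ‖P (x - y) + (P y - y) - (x - y)‖ ≤ ‖P (x - y) + (P y - y)‖ + ‖x - y‖ := norm_sub_le _ _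
      _ ≤ ‖P (x - y)‖ + ‖P y - y‖ + ‖x - y‖ := by gcongr; exact norm_add_le _ _
      _ ≤ ε / 3 + ε / 3 + ε / 3 := by gcongr
      _ = ε := by ring

end Pool.Agent.Helper61.SS
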