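import Pool.Agent.Helper61.SS.Comm
import Pool.Agent.Helper60.PT.Exist

/-!
# Project SS (MP_552bae_an): the slice theorem, with the definitions of `Pool.Agent.Helper60.PT.Defs`
-/

set_option autoImplicit false

namespace Pool.Agent.Helper61.SS

open TensorProduct Filter Topology
open Pool.Agent.Helper60

universe u v w x

theorem projNorm_eq_pn {A : Type u} {B : Type v} [NormedAddCommGroup A] [NormedSpace ℂ A]
    [NormedAddCommGroup B] [NormedSpace ℂ B] (t : A ⊗[ℂ] B) : PT.projNorm t = pn t := by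
  unfold PT.projNorm pn
  congr 1
  ext r
  constructor
  · rintro ⟨n, a, b, h, rfl⟩
    refine ⟨n, fun i => a i, fun i => b i, ?_, ?_⟩
    · rw [h, Finset.sum_range]
    · rw [Finset.sum_range]
  · rintro ⟨n, a, b, h, rfl⟩
    refine ⟨n, fun i => if hi : i < n then a ⟨i, hi⟩ else 0,
      fun i => if hi : i < n then b ⟨i, hi⟩ else 0, ?_, ?_⟩
    · rw [h, Finset.sum_range]
      simp
    · rw [Finset.sum_range]
      simp

theorem isProj_of {A : Type u} {B : Type v} {C : Type w}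
    [NonUnitalNormedRing A] [NormedSpace ℂ A] [NonUnitalNormedRing B] [NormedSpace ℂ B]
    [NonUnitalNormedRing C] [NormedSpace ℂ C] {j : A →ₗ[ℂ] B →ₗ[ℂ] C} (hj : PT.IsProj j) :
    IsProj A B C j :=
  ⟨fun a a' b b' => hj.mul a b a' b', fun t => by rw [hj.norm, projNorm_eq_pn], hj.dense⟩

theorem inRad_of_slices {A : Type u} {B : Type v} {C : Type w}
    [NonUnitalNormedRing A] [NormedSpace ℂ A] [IsScalarTower ℂ A A] [SMulCommClass ℂ A A]
    [CompleteSpace A]
    [hB : NonUnitalNormedRing B] [NormedSpace ℂ B] [IsScalarTower ℂ B B] [SMulCommClass ℂ B B]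
    [CompleteSpace B]
    [NonUnitalNormedRing C] [NormedSpace ℂ C] [IsScalarTower ℂ C C] [SMulCommClass ℂ C C]
    [CompleteSpace C] (hcomm : ∀ b b' : B, b * b' = b' * b)
    {j : A →ₗ[ℂ] B →ₗ[ℂ] C} (hj : PT.IsProj j) (u : C)
    (hu : ∀ (φ : A →L[ℂ] ℂ) (S : C →L[ℂ] B), (∀ a b, S (j a b) = φ a • b) → PT.InRad (S u)) :
    PT.InRad u := by
  let hB' : NonUnitalNormedCommRing B := { hB with mul_comm := hcomm }
  exact @mem_rad_of_slices A B C _ _ _ _ _ hB' _ _ _ _ _ _ _ _ _ j (isProj_of hj) u hu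

end Pool.Agent.Helper61.SS
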