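import Pool.Agent.Helper61.SS.Extra

/-!
# Project SS (MP_552bae_an): commutative second factor
If `B` is commutative, the kernel of the canonical map from the projective to the injective tensor product
is contained in the radical.
-/

set_option autoImplicit false

namespace Pool.Agent.Helper61.SS

open TensorProduct Filter Topology

universe u v w x

/-- Schur and Gelfand-Mazur: a bounded operator which commutes with an irreducible set of additive
homogeneous maps is a scalar. -/
theorem scalar_of_commute {X : Type u} [NormedAddCommGroup X] [NormedSpace ℂ X] [CompleteSpace X]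
    [Nontrivial X] (S : Set (X →ₗ[ℂ] X)) (hirr : ∀ x : X, x ≠ 0 → ∀ y, ∃ a ∈ S, a x = y)
    (T : X →L[ℂ] X) (hT : ∀ a ∈ S, ∀ x, T (a x) = a (T x)) : ∃ m : ℂ, ∀ x, T x = m • x := by
  obtain ⟨m, hm⟩ := spectrum.nonempty T
  refine ⟨m, ?_⟩
  by_contra hcon
  push Not at hcon
  obtain ⟨x0, hx0⟩ := hcon
  apply hm
  set D : X →L[ℂ] X := algebraMap ℂ (X →L[ℂ] X) m - T with hD
  have hDx : ∀ x, D x = m • x - T x := by
    intro x
    rw [hD, Algebra.algebraMap_eq_smul_one]
    rfl
  have hDa : ∀ a ∈ S, ∀ x, D (a x) = a (D x) := by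
    intro a ha x
    rw [hDx, hDx, map_sub, map_smul, hT a ha]
  have hy0 : D x0 ≠ 0 := by
    rw [hDx]
    intro h
    exact hx0 (sub_eq_zero.mp h).symm
  have hinj : Function.Injective D := by
    rw [injective_iff_map_eq_zero]
    intro x hx
    by_contra hne
    obtain ⟨a, ha, hax⟩ := hirr x hne x0
    apply hy0
    rw [← hax, hDa a ha, hx, map_zero]
  have hsurj : Function.Surjective D := by
    intro y
    obtain ⟨a, ha, hay⟩ := hirr _ hy0 y
    exact ⟨a x0, by rw [hDa a ha, hay]⟩
  have hunit : IsUnit D := by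
    rw [ContinuousLinearMap.isUnit_iff_bijective]
    exact ⟨hinj, hsurj⟩
  exact hunit

section

variable {C : Type w} [NonUnitalNormedRing C] [NormedSpace ℂ C] [IsScalarTower ℂ C C]
  [SMulCommClass ℂ C C] [CompleteSpace C]

theorem isUnit_one_sub_small (s : C) (hs : ‖s‖ < 1) : IsUnit (1 - (s : Unitization ℂ C)) := by
  have h1 := Helper83.SS.gSR1 C s 0 ‖s‖ (norm_nonneg _) (by simp) (by simp)
  by_contra hcon
  have hmem : (1 : ℂ) ∈ spectrum ℂ (s : Unitization ℂ C) := by
    rw [spectrum.mem_iff, map_one]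
    exact hcon
  have h2 : (‖(1 : ℂ)‖₊ : ENNReal) ≤ spectralRadius ℂ (s : Unitization ℂ C) :=
    le_iSup₂ (f := fun (k : ℂ) (_ : k ∈ spectrum ℂ (s : Unitization ℂ C)) => (‖k‖₊ : ENNReal)) 1 hmem
  have h3 := h2.trans h1
  rw [nnnorm_one, ENNReal.coe_one, ← ENNReal.ofReal_one,
    ENNReal.ofReal_le_ofReal_iff (norm_nonneg _)] at h3
  linarith

theorem mul_inr_eq (r : Unitization ℂ C) (t : C) :
    r * (t : Unitization ℂ C) = ((r.fst • t + r.snd * t : C) : Unitization ℂ C) := by
  ext <;> simp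

/-- The trace on `C` of a left ideal of the unitization, as a subspace. -/
def tr (M : Ideal (Unitization ℂ C)) : Submodule ℂ C where
  carrier := {c | (c : Unitization ℂ C) ∈ M}
  add_mem' := by
    intro a b ha hb
    change ((a + b : C) : Unitization ℂ C) ∈ M
    rw [Unitization.inr_add]
    exact M.add_mem ha hb
  zero_mem' := by simp
  smul_mem' := by
    intro z c hc
    change ((z • c : C) : Unitization ℂ C) ∈ M
    have : ((z • c : C) : Unitization ℂ C) = Unitization.inl z * (c : Unitization ℂ C) := by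
      rw [Unitization.inl_mul_inr]
    rw [this]
    exact M.mul_mem_left _ hc

theorem mem_tr {M : Ideal (Unitization ℂ C)} {c : C} :
    c ∈ tr M ↔ (c : Unitization ℂ C) ∈ M := Iff.rfl

theorem exists_one_sub {M : Ideal (Unitization ℂ C)} (hM : M.IsMaximal) {x : Unitization ℂ C}
    (hx : x ∉ M) : ∃ r : Unitization ℂ C, 1 - r * x ∈ M := by
  obtain ⟨r, m, hm, h⟩ := hM.exists_inv hx
  refine ⟨r, ?_⟩
  rw [← h]
  simpa using hm

theorem isClosed_tr (M : Ideal (Unitization ℂ C)) (hM : M.IsMaximal) :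
    IsClosed (tr M : Set C) := by
  rw [← isSeqClosed_iff_isClosed]
  intro c c0 hc hlim
  by_contra hne
  obtain ⟨r, hr⟩ := exists_one_sub hM (x := (c0 : Unitization ℂ C)) hne
  have hlim2 : Tendsto (fun n => r.fst • (c0 - c n) + r.snd * (c0 - c n)) atTop (𝓝 0) := by
    have h0 : Tendsto (fun n => c0 - c n) atTop (𝓝 0) := by
      simpa using (tendsto_const_nhds (x := c0)).sub hlim
    have h1 := (h0.const_smul r.fst).add (h0.const_mul r.snd)
    simpa using h1
  have hlim3 := hlim2.norm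
  rw [norm_zero] at hlim3
  obtain ⟨n, hn⟩ := (hlim3.eventually (eventually_lt_nhds one_pos)).exists
  have hu := isUnit_one_sub_small _ hn
  have hmem : 1 - ((r.fst • (c0 - c n) + r.snd * (c0 - c n) : C) : Unitization ℂ C) ∈ M := by
    rw [← mul_inr_eq, Unitization.inr_sub, mul_sub]
    have : 1 - (r * (c0 : Unitization ℂ C) - r * (c n : Unitization ℂ C))
        = (1 - r * (c0 : Unitization ℂ C)) + r * (c n : Unitization ℂ C) := by abel
    rw [this]
    exact M.add_mem hr (M.mul_mem_left _ (hc n))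
  exact hM.ne_top (M.eq_top_of_isUnit_mem hmem hu)

/-- irreducibility of the quotient by a maximal left ideal -/
theorem exists_mul_sub {M : Ideal (Unitization ℂ C)} (hM : M.IsMaximal) {c0 : C}
    (h0 : c0 ∉ tr M) (c1 : C) : ∃ c : C, c * c0 - c1 ∈ tr M := by
  obtain ⟨r, hr⟩ := exists_one_sub hM (x := (c0 : Unitization ℂ C)) h0
  refine ⟨r.fst • c1 + c1 * r.snd, ?_⟩
  have h1 : (c1 : Unitization ℂ C) * (1 - r * (c0 : Unitization ℂ C)) ∈ M := M.mul_mem_left _ hr
  have h2 : (((r.fst • c1 + c1 * r.snd) * c0 - c1 : C) : Unitization ℂ C)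
      = -((c1 : Unitization ℂ C) * (1 - r * (c0 : Unitization ℂ C))) := by
    rw [mul_inr_eq, mul_sub, mul_one, ← Unitization.inr_mul, ← Unitization.inr_sub,
      ← Unitization.inr_neg]
    congr 1
    rw [add_mul, mul_add, smul_mul_assoc, mul_smul_comm, mul_assoc]
    abel
  rw [mem_tr, h2]
  exact M.neg_mem h1

theorem mul_mem_tr {M : Ideal (Unitization ℂ C)} (c : C) {m : C} (hm : m ∈ tr M) :
    c * m ∈ tr M := by
  rw [mem_tr, Unitization.inr_mul]
  exact M.mul_mem_left _ hm

end

section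

variable {A : Type u} {B : Type v} {C : Type w}
  [NonUnitalNormedRing A] [NormedSpace ℂ A] [IsScalarTower ℂ A A] [SMulCommClass ℂ A A]
  [CompleteSpace A]
  [NonUnitalNormedCommRing B] [NormedSpace ℂ B] [IsScalarTower ℂ B B] [SMulCommClass ℂ B B]
  [CompleteSpace B]
  [NonUnitalNormedRing C] [NormedSpace ℂ C] [IsScalarTower ℂ C C] [SMulCommClass ℂ C C]
  [CompleteSpace C]

/-- continuous bilinear maps which agree on the products agree -/
theorem clm2_ext {Z : Type x} [NormedAddCommGroup Z] [NormedSpace ℂ Z]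
    {j : A →ₗ[ℂ] B →ₗ[ℂ] C} (hj : IsProj A B C j) (P Q : C →L[ℂ] C →L[ℂ] Z)
    (h : ∀ a b a' b', P (j a b) (j a' b') = Q (j a b) (j a' b')) (c c' : C) : P c c' = Q c c' := by
  have h1 : ∀ a b, P (j a b) = Q (j a b) := by
    intro a b
    ext c
    exact Helper56.SS.clm_ext hj (P (j a b)) (Q (j a b)) (fun a' b' => h a b a' b') c
  exact congrArg (fun T => T c') (Helper56.SS.clm_ext hj P Q h1 c)

/-- the jointly continuous map `A × B → C` -/
noncomputable def J {j : A →ₗ[ℂ] B →ₗ[ℂ] C} (hj : IsProj A B C j) : A →L[ℂ] B →L[ℂ] C :=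
  LinearMap.mkContinuous₂ j 1 (fun a b => by
    rw [one_mul]
    exact Helper35.SS.j_le j hj a b)

theorem J_apply {j : A →ₗ[ℂ] B →ₗ[ℂ] C} (hj : IsProj A B C j) (a : A) (b : B) :
    J hj a b = j a b := rfl

/-- multiplication by the second factor -/
theorem exists_Lam {j : A →ₗ[ℂ] B →ₗ[ℂ] C} (hj : IsProj A B C j) :
    ∃ Lam : C →L[ℂ] B →L[ℂ] C, ∀ a b b', Lam (j a b) b' = j a (b * b') := by
  obtain ⟨L, hL⟩ := Helper96.SS.gEXT A B C (B →L[ℂ] C) j hj
    (((ContinuousLinearMap.compL ℂ B (B →L[ℂ] B) (B →L[ℂ] C)).flip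
      (ContinuousLinearMap.mul ℂ B)).comp ((ContinuousLinearMap.compL ℂ B B C).comp (J hj)))
  exact ⟨L, fun a b b' => by rw [hL]; rfl⟩

theorem Lam_mul {j : A →ₗ[ℂ] B →ₗ[ℂ] C} (hj : IsProj A B C j) {Lam : C →L[ℂ] B →L[ℂ] C}
    (hL : ∀ a b b', Lam (j a b) b' = j a (b * b')) (c x : C) (b : B) :
    Lam (c * x) b = c * Lam x b := by
  have := clm2_ext hj
    (((ContinuousLinearMap.compL ℂ C C C) (Lam.flip b)).comp (ContinuousLinearMap.mul ℂ C))
    (((ContinuousLinearMap.compL ℂ C C C).flip (Lam.flip b)).comp (ContinuousLinearMap.mul ℂ C))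
    (fun a1 b1 a2 b2 => by
      simp only [ContinuousLinearMap.comp_apply, ContinuousLinearMap.compL_apply,
        ContinuousLinearMap.flip_apply, ContinuousLinearMap.mul_apply', hj.mul, hL, mul_assoc]) c x
  simpa only [ContinuousLinearMap.comp_apply, ContinuousLinearMap.compL_apply,
        ContinuousLinearMap.flip_apply, ContinuousLinearMap.mul_apply'] using this

theorem Lam_mul' {j : A →ₗ[ℂ] B →ₗ[ℂ] C} (hj : IsProj A B C j) {Lam : C →L[ℂ] B →L[ℂ] C}
    (hL : ∀ a b b', Lam (j a b) b' = j a (b * b')) (c x : C) (b : B) :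
    Lam c b * x = c * Lam x b := by
  have := clm2_ext hj
    ((ContinuousLinearMap.mul ℂ C).comp (Lam.flip b))
    (((ContinuousLinearMap.compL ℂ C C C).flip (Lam.flip b)).comp (ContinuousLinearMap.mul ℂ C))
    (fun a1 b1 a2 b2 => by
      simp only [ContinuousLinearMap.comp_apply, ContinuousLinearMap.compL_apply,
        ContinuousLinearMap.flip_apply, ContinuousLinearMap.mul_apply', hj.mul, hL]
      rw [mul_assoc, mul_comm b b2]) c x
  simpa only [ContinuousLinearMap.comp_apply, ContinuousLinearMap.compL_apply,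
        ContinuousLinearMap.flip_apply, ContinuousLinearMap.mul_apply'] using this

theorem Lam_Lam {j : A →ₗ[ℂ] B →ₗ[ℂ] C} (hj : IsProj A B C j) {Lam : C →L[ℂ] B →L[ℂ] C}
    (hL : ∀ a b b', Lam (j a b) b' = j a (b * b')) (c : C) (b b' : B) :
    Lam (Lam c b) b' = Lam c (b * b') := by
  have := Helper56.SS.clm_ext hj ((Lam.flip b').comp (Lam.flip b)) (Lam.flip (b * b'))
    (fun a1 b1 => by
      simp only [ContinuousLinearMap.comp_apply, ContinuousLinearMap.flip_apply, hL, mul_assoc]) c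
  simpa only [ContinuousLinearMap.comp_apply, ContinuousLinearMap.flip_apply] using this

/-- slices by multiplicative functionals are multiplicative -/
theorem slice_mul {j : A →ₗ[ℂ] B →ₗ[ℂ] C} (hj : IsProj A B C j) {p : B →L[ℂ] ℂ}
    (hp : ∀ b b', p (b * b') = p b * p b') {R : C →L[ℂ] A} (hR : ∀ a b, R (j a b) = p b • a)
    (c c' : C) : R (c * c') = R c * R c' := by
  have := clm2_ext hj
    ((ContinuousLinearMap.compL ℂ C C A R).comp (ContinuousLinearMap.mul ℂ C))
    (((ContinuousLinearMap.compL ℂ C A A).flip R).comp ((ContinuousLinearMap.mul ℂ A).comp R))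
    (fun a1 b1 a2 b2 => by
      simp only [ContinuousLinearMap.comp_apply, ContinuousLinearMap.compL_apply,
        ContinuousLinearMap.flip_apply, ContinuousLinearMap.mul_apply', hj.mul, hR, hp]
      rw [smul_mul_smul_comm]) c c'
  simpa only [ContinuousLinearMap.comp_apply, ContinuousLinearMap.compL_apply,
        ContinuousLinearMap.flip_apply, ContinuousLinearMap.mul_apply'] using this

/-- The second factor acts by a character modulo a maximal modular left ideal. -/
theorem exists_char {j : A →ₗ[ℂ] B →ₗ[ℂ] C} (hj : IsProj A B C j) {Lam : C →L[ℂ] B →L[ℂ] C}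
    (hL : ∀ a b b', Lam (j a b) b' = j a (b * b')) {M : Ideal (Unitization ℂ C)}
    (hM : M.IsMaximal) {c0 : C} (h0 : c0 ∉ tr M) :
    ∃ p : B →L[ℂ] ℂ, (∀ b b', p (b * b') = p b * p b') ∧ ∀ c b, Lam c b - p b • c ∈ tr M := by
  have hcl : IsClosed (tr M : Set C) := isClosed_tr M hM
  have hnt : Nontrivial (C ⧸ tr M) := by
    refine Submodule.Quotient.nontrivial_iff.mpr ?_
    intro h
    rw [h] at h0
    exact h0 Submodule.mem_top
  have hpres : ∀ b, ∀ m ∈ tr M, Lam m b ∈ tr M := by
    intro b m hm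
    by_contra h
    obtain ⟨c, hc⟩ := exists_mul_sub hM h c0
    rw [← Lam_mul' hj hL] at hc
    have h1 : Lam c b * m ∈ tr M := mul_mem_tr _ hm
    have h2 := (tr M).sub_mem h1 hc
    rw [sub_sub_cancel] at h2
    exact h0 h2
  have hsc : ∀ b : B, ∃ m : ℂ, ∀ c : C, (tr M).mkQL (Lam c b) = m • (tr M).mkQL c := by
    intro b
    let T0 : (C ⧸ tr M) →ₗ[ℂ] (C ⧸ tr M) :=
      (tr M).mapQ (tr M) ((Lam.flip b : C →L[ℂ] C) : C →ₗ[ℂ] C) (fun m hm => hpres b m hm)
    have hT0 : Continuous T0 := by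
      rw [(tr M).isQuotientMap_mkQL.continuous_iff]
      exact (tr M).mkQL.continuous.comp (Lam.flip b).continuous
    let T : (C ⧸ tr M) →L[ℂ] (C ⧸ tr M) := ⟨T0, hT0⟩
    let S : Set ((C ⧸ tr M) →ₗ[ℂ] (C ⧸ tr M)) :=
      Set.range fun c : C => (tr M).mapQ (tr M) (LinearMap.mulLeft ℂ c)
        (fun m hm => mul_mem_tr c hm)
    obtain ⟨m, hm⟩ := scalar_of_commute S (by
      intro x hx y
      obtain ⟨c1, rfl⟩ := Submodule.Quotient.mk_surjective _ x
      obtain ⟨c2, rfl⟩ := Submodule.Quotient.mk_surjective _ y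
      have hc1 : c1 ∉ tr M := by
        intro h
        exact hx ((Submodule.Quotient.mk_eq_zero _).mpr h)
      obtain ⟨c, hc⟩ := exists_mul_sub hM hc1 c2
      refine ⟨_, ⟨c, rfl⟩, ?_⟩
      show Submodule.Quotient.mk (c * c1) = Submodule.Quotient.mk c2
      exact (Submodule.Quotient.eq _).mpr hc) T (by
      rintro _ ⟨c, rfl⟩ x
      obtain ⟨c1, rfl⟩ := Submodule.Quotient.mk_surjective _ x
      show Submodule.Quotient.mk (Lam (c * c1) b) = Submodule.Quotient.mk (c * Lam c1 b)
      rw [Lam_mul hj hL])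
    exact ⟨m, fun c => hm (Submodule.Quotient.mk c)⟩
  have hx0 : (tr M).mkQL c0 ≠ 0 := by
    intro h
    exact h0 ((Submodule.Quotient.mk_eq_zero _).mp h)
  obtain ⟨ξ, hξ⟩ := SeparatingDual.exists_ne_zero (R := ℂ) hx0
  let p : B →L[ℂ] ℂ := (ξ ((tr M).mkQL c0))⁻¹ • (ξ.comp ((tr M).mkQL.comp (Lam c0)))
  have hp : ∀ b, ∀ c : C, (tr M).mkQL (Lam c b) = p b • (tr M).mkQL c := by
    intro b
    obtain ⟨m, hm⟩ := hsc b
    have h1 : p b = m := by
      show (ξ ((tr M).mkQL c0))⁻¹ * ξ ((tr M).mkQL (Lam c0 b)) = m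
      rw [hm c0, map_smul, smul_eq_mul]
      field_simp
    rw [h1]
    exact hm
  refine ⟨p, ?_, ?_⟩
  · intro b b'
    have h1 := hp b' (Lam c0 b)
    rw [Lam_Lam hj hL, hp, hp, smul_smul] at h1
    have h2 := smul_left_injective ℂ hx0 h1
    rw [h2, mul_comm]
  · intro c b
    have h1 := hp b c
    rw [← map_smul] at h1
    exact (Submodule.Quotient.eq _).mp h1

/-- If all slices of `u` by functionals on `A` are in the radical of the commutative algebra `B`, then
`u` is in the radical of the projective tensor product. -/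
theorem mem_rad_of_slices {j : A →ₗ[ℂ] B →ₗ[ℂ] C} (hj : IsProj A B C j) (u : C)
    (hu : ∀ (φ : A →L[ℂ] ℂ) (L : C →L[ℂ] B), (∀ a b, L (j a b) = φ a • b) →
      ((L u : B) : Unitization ℂ B) ∈ Ring.jacobson (Unitization ℂ B)) :
    (u : Unitization ℂ C) ∈ Ring.jacobson (Unitization ℂ C) := by
  -- slices by multiplicative functionals on `B` vanish
  have hR0 : ∀ (p : B →L[ℂ] ℂ), (∀ b b', p (b * b') = p b * p b') → ∀ R : C →L[ℂ] A,
      (∀ a b, R (j a b) = p b • a) → R u = 0 := by
    intro p hp R hR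
    by_contra hne
    obtain ⟨φ, hφ⟩ := SeparatingDual.exists_ne_zero (R := ℂ) hne
    obtain ⟨L, hL⟩ := Helper96.SS.gEXT A B C B j hj (φ.smulRight (ContinuousLinearMap.id ℂ B))
    have hL' : ∀ a b, L (j a b) = φ a • b := by
      intro a b
      rw [hL]
      simp
    have h1 := hu φ L hL'
    let p' : B →ₙₐ[ℂ] ℂ :=
      { toFun := p
        map_smul' := fun c x => by simp
        map_zero' := map_zero p
        map_add' := map_add p
        map_mul' := hp }
    have h2 : p (L u) = 0 := Helper44.SS.char_radical p' (L u) h1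
    apply hφ
    have := Helper56.SS.clm_ext hj (φ.comp R) (p.comp L) (fun a b => by
      simp only [ContinuousLinearMap.comp_apply, hR, hL', map_smul, smul_eq_mul]
      ring) u
    simp only [ContinuousLinearMap.comp_apply] at this
    rw [this, h2]
  rw [Ring.jacobson_eq_sInf_isMaximal, Ideal.mem_sInf]
  intro M hM
  have hM' : M.IsMaximal := hM
  by_contra hne
  obtain ⟨r, hr⟩ := exists_one_sub hM' hne
  rw [mul_inr_eq] at hr
  set c0 : C := r.fst • u + r.snd * u with hc0
  have h0 : c0 ∉ tr M := by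
    intro h
    have h1 := M.add_mem hr h
    rw [sub_add_cancel] at h1
    exact hM'.ne_top ((Ideal.eq_top_iff_one M).mpr h1)
  obtain ⟨Lam, hL⟩ := exists_Lam hj
  obtain ⟨p, hp, hpc⟩ := exists_char hj hL hM' h0
  obtain ⟨R, hRR⟩ := Helper96.SS.gEXT A B C A j hj (ContinuousLinearMap.smulRightL ℂ B A p)
  have hR : ∀ a b, R (j a b) = p b • a := by
    intro a b
    rw [hRR]
    simp
  have hRc0 : R c0 = 0 := by
    rw [hc0, map_add, map_smul, slice_mul hj hp hR, hR0 p hp R hR]
    simp
  have hcl : IsClosed (tr M : Set C) := isClosed_tr M hM'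
  have hstep : ∀ a b, c0 * j a b ∈ tr M := by
    intro a b
    have h1 := Helper56.SS.clm_ext hj
      ((tr M).mkQL.comp ((ContinuousLinearMap.mul ℂ C).flip (j a b)))
      ((tr M).mkQL.comp (((J hj).flip b).comp (((ContinuousLinearMap.mul ℂ A).flip a).comp R)))
      (fun a1 b1 => by
        simp only [ContinuousLinearMap.comp_apply, ContinuousLinearMap.flip_apply,
          ContinuousLinearMap.mul_apply', hj.mul, hR, J_apply, smul_mul_assoc, map_smul,
          LinearMap.smul_apply]
        have h2 := hpc (j (a1 * a) b) b1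
        rw [hL, mul_comm b b1] at h2
        rw [← map_smul]
        exact (Submodule.Quotient.eq _).mpr h2) c0
    simp only [ContinuousLinearMap.comp_apply, ContinuousLinearMap.flip_apply,
          ContinuousLinearMap.mul_apply', hRc0, zero_mul, map_zero] at h1
    exact (Submodule.Quotient.mk_eq_zero _).mp h1
  have hall : ∀ c, c0 * c ∈ tr M := by
    intro c
    have h1 := Helper56.SS.clm_ext hj
      ((tr M).mkQL.comp ((ContinuousLinearMap.mul ℂ C) c0)) 0
      (fun a1 b1 => by
        simp only [ContinuousLinearMap.comp_apply, ContinuousLinearMap.mul_apply']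
        exact (Submodule.Quotient.mk_eq_zero _).mpr (hstep a1 b1)) c
    exact (Submodule.Quotient.mk_eq_zero _).mp h1
  apply h0
  have h1 : (c0 : Unitization ℂ C) * (1 - (c0 : Unitization ℂ C)) ∈ M := M.mul_mem_left _ hr
  have h2 : ((c0 * c0 : C) : Unitization ℂ C) ∈ M := hall c0
  have h3 := M.add_mem h1 h2
  rw [mul_sub, mul_one, Unitization.inr_mul, sub_add_cancel] at h3
  exact h3

end

end Pool.Agent.Helper61.SS
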