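import Pool.Agent.Helper61.SS.Exc2

/-!
# Projective tensor products of C*-algebras and Banach algebras: definitions

A Banach algebra is a complete (not necessarily unital) normed algebra over `ℂ`.
-/

set_option autoImplicit false

namespace Pool.Agent.Helper61.SS

open TensorProduct Filter Topology

universe u v w

/-- A Banach algebra is semisimple if the Jacobson radical of its unitization contains no nonzero
element of the algebra. -/
def Semisimple (B : Type u) [NonUnitalNormedRing B] [NormedSpace ℂ B] [IsScalarTower ℂ B B]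
    [SMulCommClass ℂ B B] : Prop :=
  ∀ x : B, (x : Unitization ℂ B) ∈ Ring.jacobson (Unitization ℂ B) → x = 0

/-- The approximation property: the identity is approximated uniformly on compact sets by operators of
finite rank. -/
def AP (A : Type u) [NormedAddCommGroup A] [NormedSpace ℂ A] : Prop :=
  ∀ K : Set A, IsCompact K → ∀ ε : ℝ, 0 < ε → ∃ S : A →L[ℂ] A,
    FiniteDimensional ℂ (LinearMap.range (S : A →ₗ[ℂ] A)) ∧ ∀ x ∈ K, ‖S x - x‖ ≤ ε

/-- The projective norm of an element of the algebraic tensor product. -/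
noncomputable def pn {A : Type u} {B : Type v} [NormedAddCommGroup A] [NormedSpace ℂ A]
    [NormedAddCommGroup B] [NormedSpace ℂ B] (t : A ⊗[ℂ] B) : ℝ :=
  sInf {r : ℝ | ∃ (n : ℕ) (a : Fin n → A) (b : Fin n → B),
    t = ∑ i, a i ⊗ₜ[ℂ] b i ∧ r = ∑ i, ‖a i‖ * ‖b i‖}

/-- `C`, with the bilinear map `j`, is the (completed) projective tensor product of the Banach algebras
`A` and `B`: the image of the algebraic tensor product is dense, the norm is the projective norm, and
`(a ⊗ b) (a' ⊗ b') = a a' ⊗ b b'`. -/
structure IsProj (A : Type u) (B : Type v) (C : Type w)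
    [NonUnitalNormedRing A] [NormedSpace ℂ A]
    [NonUnitalNormedRing B] [NormedSpace ℂ B]
    [NonUnitalNormedRing C] [NormedSpace ℂ C]
    (j : A →ₗ[ℂ] B →ₗ[ℂ] C) : Prop where
  mul : ∀ a a' b b', j a b * j a' b' = j (a * a') (b * b')
  norm : ∀ t : A ⊗[ℂ] B, ‖TensorProduct.lift j t‖ = pn t
  dense : DenseRange (TensorProduct.lift j)

/-- A nuclear operator of trace different from zero which is zero: the failure of the approximation
property in Grothendieck's form. -/
def TRF (A : Type u) [NormedAddCommGroup A] [NormedSpace ℂ A] : Prop :=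
  ∃ (x : ℕ → A) (f : ℕ → (A →L[ℂ] ℂ)), Tendsto x atTop (𝓝 0) ∧ (Summable fun k => ‖f k‖) ∧
    (∀ y : A, ∑' k, f k y • x k = 0) ∧ ∑' k, f k (x k) ≠ 0

/-- powers: `pw x n = x ^ (n + 1)` -/
def pw {B : Type u} [Mul B] (x : B) : ℕ → B
  | 0 => x
  | (n + 1) => pw x n * x

end Pool.Agent.Helper61.SS
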