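import Mathlib

/-!
# An elementary excision lemma for C*-algebras, part 1: finite sets
-/

set_option autoImplicit false

namespace Pool.Agent.Helper61.SS

universe u

section

variable {A : Type u} [NonUnitalCStarAlgebra A] [PartialOrder A] [StarOrderedRing A]

omit [PartialOrder A] [StarOrderedRing A] in
theorem smul_conj (t : ℝ) (a b c : A) : a * (t • b) * c = t • (a * b * c) := by
  rw [mul_smul_comm, smul_mul_assoc]

omit [PartialOrder A] [StarOrderedRing A] in
theorem star_mul_self_ne {v : A} (hv : v ≠ 0) : star v * v ≠ 0 := by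
  intro h
  exact hv (CStarRing.star_mul_self_eq_zero_iff v |>.1 h)

omit [PartialOrder A] [StarOrderedRing A] in
theorem mul_star_mul_self_ne {v : A} (hv : v ≠ 0) : v * (star v * v) ≠ 0 := by
  intro h
  have h1 : star (star v * v) * (star v * v) = 0 := by
    rw [star_mul, star_star, mul_assoc, h, mul_zero]
  exact star_mul_self_ne hv (CStarRing.star_mul_self_eq_zero_iff _ |>.1 h1)

theorem smul_nonneg_elt {w : A} (hw : w ≠ 0) (t : ℝ) (h : 0 ≤ t • (star w * w)) : 0 ≤ t := by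
  by_contra ht
  push Not at ht
  have h1 : 0 ≤ (-t) • (star w * w) := smul_nonneg (by linarith) (star_mul_self_nonneg w)
  rw [neg_smul, neg_nonneg] at h1
  have h2 : t • (star w * w) = 0 := le_antisymm h1 h
  rcases smul_eq_zero.1 h2 with h3 | h3
  · linarith
  · exact star_mul_self_ne hw h3

/-- `y` is a scalar, up to `d`, on `v` -/
def Sc (y v : A) (l d : ℝ) : Prop :=
  (l - d) • (star v * v) ≤ star v * y * v ∧ star v * y * v ≤ (l + d) • (star v * v)

theorem le_conj {v x : A} {y : A} {t : ℝ} (h : star v * y * v ≤ t • (star v * v)) :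
    star (v * x) * y * (v * x) ≤ t • (star (v * x) * (v * x)) := by
  have h1 := star_left_conjugate_le_conjugate h x
  rw [smul_conj] at h1
  simpa only [star_mul, mul_assoc] using h1

theorem conj_le {v x : A} {y : A} {t : ℝ} (h : t • (star v * v) ≤ star v * y * v) :
    t • (star (v * x) * (v * x)) ≤ star (v * x) * y * (v * x) := by
  have h1 := star_left_conjugate_le_conjugate h x
  rw [smul_conj] at h1
  simpa only [star_mul, mul_assoc] using h1

theorem Sc.mul {y v : A} {l d : ℝ} (h : Sc y v l d) (x : A) : Sc y (v * x) l d :=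
  ⟨conj_le h.1, le_conj h.2⟩

theorem conj_le_norm {y : A} (hy : IsSelfAdjoint y) (w : A) : star w * y * w ≤ ‖y‖ • (star w * w) := by
  have h := CStarAlgebra.star_left_conjugate_le_norm_smul (a := w) (b := y) (hb := hy)
  simpa only [smul_mul_assoc] using h

theorem neg_norm_le_conj {y : A} (hy : IsSelfAdjoint y) (w : A) :
    (-‖y‖) • (star w * w) ≤ star w * y * w := by
  have h := conj_le_norm (y := -y) hy.neg w
  rw [norm_neg, mul_neg, neg_mul] at h
  rw [neg_smul]
  exact neg_le.1 h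

omit [PartialOrder A] [StarOrderedRing A] in
/-- the cube of the positive part -/
theorem pos_cube (b : A) (hb : IsSelfAdjoint b) : b⁺ * b * b⁺ = b⁺ * b⁺ * b⁺ := by
  have h : b⁺ * b = b⁺ * b⁺ := by
    calc b⁺ * b = b⁺ * (b⁺ - b⁻) := by rw [CFC.posPart_sub_negPart b hb]
      _ = b⁺ * b⁺ := by rw [mul_sub, CFC.posPart_mul_negPart, sub_zero]
  rw [h]

omit [PartialOrder A] [StarOrderedRing A] in
theorem cube_ne {e : A} (he : IsSelfAdjoint e) (h0 : e ≠ 0) : e * e * e ≠ 0 := by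
  intro h
  have h1 : star (e * e) * (e * e) = 0 := by
    rw [star_mul, he.star_eq, ← mul_assoc, h, zero_mul]
  have h2 : star e * e = 0 := by
    rw [he.star_eq]
    exact CStarRing.star_mul_self_eq_zero_iff _ |>.1 h1
  exact star_mul_self_ne h0 h2

/-- lower bound on a part of `v`: if `star v * y * v` is not `≤ t • star v * v` then `y ≥ t` on a part -/
theorem exists_ge {y : A} (hy : IsSelfAdjoint y) {v : A} {t : ℝ}
    (h : ¬ star v * y * v ≤ t • (star v * v)) :
    ∃ e : A, v * e ≠ 0 ∧ t • (star (v * e) * (v * e)) ≤ star (v * e) * y * (v * e) := by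
  obtain ⟨b, hb⟩ : ∃ b : A, b = star v * y * v - t • (star v * v) := ⟨_, rfl⟩
  have hbs : IsSelfAdjoint b := by
    have h3 : IsSelfAdjoint (star v * y * v) := hy.conjugate' v
    have h4 : IsSelfAdjoint (star v * v) := IsSelfAdjoint.star_mul_self v
    rw [hb]
    exact h3.sub (IsSelfAdjoint.smul (isSelfAdjoint_iff.2 (star_trivial t)) h4)
  have hb0 : b⁺ ≠ 0 := by
    intro h0
    rw [CFC.posPart_eq_zero_iff b hbs, hb] at h0
    exact h (sub_nonpos.1 h0)
  have hp : 0 ≤ b⁺ := CFC.posPart_nonneg b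
  have hps : IsSelfAdjoint b⁺ := hp.isSelfAdjoint
  have h1 : star (v * b⁺) * y * (v * b⁺) - t • (star (v * b⁺) * (v * b⁺)) = b⁺ * b⁺ * b⁺ := by
    rw [← pos_cube b hbs, star_mul, hps.star_eq]
    generalize b⁺ = e
    rw [hb, mul_sub, sub_mul, smul_conj]
    simp only [mul_assoc]
  have h2 : 0 ≤ b⁺ * b⁺ * b⁺ := by
    have := star_left_conjugate_nonneg hp b⁺
    rwa [hps.star_eq] at this
  refine ⟨b⁺, ?_, ?_⟩
  · intro h0
    rw [h0] at h1
    simp only [star_zero, zero_mul, mul_zero, smul_zero, sub_zero] at h1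
    exact cube_ne hps hb0 h1.symm
  · rw [← sub_nonneg, h1]
    exact h2

/-- on a part of `v`, `y` is a scalar up to `d` -/
theorem exists_sc {y : A} (hy : IsSelfAdjoint y) {v : A} (hv : v ≠ 0) {d : ℝ} (hd : 0 < d) :
    ∃ (k : A) (l : ℝ), v * k ≠ 0 ∧ Sc y (v * k) l d := by
  set S : Set ℝ := {t | ∃ k : A, v * k ≠ 0 ∧ star (v * k) * y * (v * k) ≤ t • (star (v * k) * (v * k))} with hS
  have hne : S.Nonempty := ⟨‖y‖, star v * v, mul_star_mul_self_ne hv, conj_le_norm hy _⟩
  have hbd : BddBelow S := by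
    refine ⟨-‖y‖, ?_⟩
    rintro t ⟨k, hk, h⟩
    have h1 := (neg_norm_le_conj hy (v * k)).trans h
    rw [← sub_nonneg, ← sub_smul] at h1
    have := smul_nonneg_elt hk _ h1
    linarith
  obtain ⟨t, ⟨k₁, hk₁, ht⟩, htl⟩ := exists_lt_of_csInf_lt hne (lt_add_of_pos_right (sInf S) hd)
  have h2 : ¬ star (v * k₁) * y * (v * k₁) ≤ (sInf S - d) • (star (v * k₁) * (v * k₁)) := by
    intro h
    have := csInf_le hbd (show sInf S - d ∈ S from ⟨k₁, hk₁, h⟩)
    linarith
  obtain ⟨e, he, hge⟩ := exists_ge hy h2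
  refine ⟨k₁ * e, sInf S, ?_, ?_, ?_⟩
  · rwa [← mul_assoc]
  · rwa [← mul_assoc v k₁ e]
  · rw [← mul_assoc v k₁ e]
    apply le_conj
    refine ht.trans ?_
    exact smul_le_smul_of_nonneg_right htl.le (star_mul_self_nonneg _)

theorem exists_sc_finset (F : Finset A) (hF : ∀ y ∈ F, IsSelfAdjoint y) {v : A} (hv : v ≠ 0) {d : ℝ}
    (hd : 0 < d) : ∃ k : A, v * k ≠ 0 ∧ ∀ y ∈ F, ∃ l : ℝ, Sc y (v * k) l d := by
  classical
  induction F using Finset.induction_on with
  | empty => exact ⟨star v * v, mul_star_mul_self_ne hv, fun y hy => absurd hy (Finset.notMem_empty y)⟩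
  | insert y F _ ih =>
    obtain ⟨k, hk, h⟩ := ih fun y hy => hF y (Finset.mem_insert_of_mem hy)
    obtain ⟨k', l, hk', h'⟩ := exists_sc (hF y (Finset.mem_insert_self y F)) hk hd
    refine ⟨k * k', by rwa [← mul_assoc], fun z hz => ?_⟩
    rcases Finset.mem_insert.1 hz with rfl | hz
    · exact ⟨l, by rwa [← mul_assoc v k k']⟩
    · obtain ⟨l', h''⟩ := h z hz
      exact ⟨l', by rw [← mul_assoc v k k']; exact h''.mul k'⟩

/-- the positive contraction of `v` -/
theorem exists_pos {v : A} (hv : v ≠ 0) : ∃ k : A, 0 ≤ v * k ∧ ‖v * k‖ = 1 := by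
  refine ⟨(‖v‖ ^ 2)⁻¹ • star v, ?_, ?_⟩
  · rw [mul_smul_comm]
    exact smul_nonneg (by positivity) (mul_star_self_nonneg v)
  · have h0 : ‖v‖ ≠ 0 := norm_ne_zero_iff.2 hv
    rw [mul_smul_comm, norm_smul, CStarRing.norm_self_mul_star, norm_inv, norm_pow, norm_norm]
    field_simp

theorem Sc.norm_le {y c : A} {l d : ℝ} (hd : 0 ≤ d) (h : Sc y c l d) (hc : 0 ≤ c) (h1 : ‖c‖ = 1) :
    ‖c * y * c - (l - d) • (c * c)‖ ≤ 2 * d := by
  have hs : star c = c := hc.isSelfAdjoint.star_eq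
  obtain ⟨h2, h3⟩ := h
  rw [hs] at h2 h3
  have h4 : 0 ≤ c * y * c - (l - d) • (c * c) := sub_nonneg.2 h2
  have h5 : c * y * c - (l - d) • (c * c) ≤ (2 * d) • (c * c) := by
    rw [sub_le_iff_le_add, ← add_smul]
    convert h3 using 2
    ring
  have h6 := CStarAlgebra.norm_le_norm_of_nonneg_of_le (ha := h4) (hab := h5)
  refine h6.trans ?_
  rw [norm_smul, Real.norm_of_nonneg (by linarith)]
  have h7 : ‖c * c‖ ≤ 1 := (norm_mul_le c c).trans (by rw [h1, one_mul])
  nlinarith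

/-- excision of a finite set, inside `v` -/
theorem exists_exc_finset (F : Finset A) {v : A} (hv : v ≠ 0) {ε : ℝ} (hε : 0 < ε) :
    ∃ k : A, 0 ≤ v * k ∧ ‖v * k‖ = 1 ∧ ∀ y ∈ F, ∃ l : ℂ, ‖v * k * y * (v * k) - l • (v * k * (v * k))‖ ≤ ε := by
  classical
  set G : Finset A := (F.image fun y => ((realPart y : selfAdjoint A) : A)) ∪
    F.image fun y => ((imaginaryPart y : selfAdjoint A) : A) with hG
  obtain ⟨k, hk, h⟩ := exists_sc_finset G (by
    intro y hy
    rw [hG, Finset.mem_union, Finset.mem_image, Finset.mem_image] at hy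
    rcases hy with ⟨z, _, rfl⟩ | ⟨z, _, rfl⟩
    · exact (realPart z).2
    · exact (imaginaryPart z).2) hv (d := ε / 4) (by linarith)
  obtain ⟨k', hk', hk''⟩ := exists_pos hk
  rw [mul_assoc] at hk' hk''
  refine ⟨k * k', hk', hk'', fun y hy => ?_⟩
  obtain ⟨l₁, h₁⟩ := h (realPart y : A) (by
    rw [hG, Finset.mem_union]
    exact Or.inl (Finset.mem_image_of_mem _ hy))
  obtain ⟨l₂, h₂⟩ := h (imaginaryPart y : A) (by
    rw [hG, Finset.mem_union]
    exact Or.inr (Finset.mem_image_of_mem _ hy))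
  have h₁' := (h₁.mul k')
  have h₂' := (h₂.mul k')
  rw [mul_assoc] at h₁' h₂'
  have e₁ := h₁'.norm_le (by linarith) hk' hk''
  have e₂ := h₂'.norm_le (by linarith) hk' hk''
  set c : A := v * (k * k') with hc
  refine ⟨((l₁ - ε / 4 : ℝ) : ℂ) + Complex.I * ((l₂ - ε / 4 : ℝ) : ℂ), ?_⟩
  have h3 : c * y * c - (((l₁ - ε / 4 : ℝ) : ℂ) + Complex.I * ((l₂ - ε / 4 : ℝ) : ℂ)) • (c * c) =
      (c * (realPart y : A) * c - (l₁ - ε / 4) • (c * c)) +
      Complex.I • (c * (imaginaryPart y : A) * c - (l₂ - ε / 4) • (c * c)) := by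
    conv_lhs => rw [← realPart_add_I_smul_imaginaryPart y]
    rw [mul_add, add_mul, mul_smul_comm, smul_mul_assoc, add_smul, mul_smul, smul_sub]
    simp only [Complex.coe_smul]
    abel
  rw [h3]
  refine (norm_add_le _ _).trans ?_
  rw [norm_smul, Complex.norm_I, one_mul]
  linarith

end

end Pool.Agent.Helper61.SS
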