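import Pool.Agent.Helper61.SS.Exc1

/-!
# An elementary excision lemma for C*-algebras, part 2: excisable functionals separate the points
-/

set_option autoImplicit false

namespace Pool.Agent.Helper61.SS

open Filter Topology

universe u

section

variable {A : Type u} [NonUnitalCStarAlgebra A]

/-- `φ` can be excised: for finitely many elements `y` there is a self-adjoint `c` of norm one such that
`c y c` is close to `φ(y) c c`. -/
def Excisable (φ : A →L[ℂ] ℂ) : Prop :=
  ∀ (F : Finset A) (ε : ℝ), 0 < ε → ∃ c : A, IsSelfAdjoint c ∧ ‖c‖ = 1 ∧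
    ∀ y ∈ F, ‖c * y * c - φ y • (c * c)‖ ≤ ε

variable [PartialOrder A] [StarOrderedRing A]

theorem norm_sq_one {c : A} (hc : 0 ≤ c) (h1 : ‖c‖ = 1) : ‖c * c‖ = 1 := by
  have h := CStarRing.norm_star_mul_self (x := c)
  rw [hc.isSelfAdjoint.star_eq, h1] at h
  rw [h, one_mul]

theorem exists_functional {v : A} (hv : v ≠ 0) : ∃ φ : A →L[ℂ] ℂ, ∀ (F : Finset A) (ε : ℝ), 0 < ε →
    ∃ k : A, 0 ≤ v * k ∧ ‖v * k‖ = 1 ∧ ∀ y ∈ F, ‖v * k * y * (v * k) - φ y • (v * k * (v * k))‖ ≤ ε := by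
  classical
  choose k hk0 hk1 hk using fun i : Finset A × ℕ =>
    exists_exc_finset i.1 hv (ε := 1 / ((i.2 : ℝ) + 1)) (by positivity)
  have hl' : ∀ (i : Finset A × ℕ) (y : A), ∃ l : ℂ, y ∈ i.1 →
      ‖v * k i * y * (v * k i) - l • (v * k i * (v * k i))‖ ≤ 1 / ((i.2 : ℝ) + 1) := by
    intro i y
    by_cases hy : y ∈ i.1
    · obtain ⟨l, hl⟩ := hk i y hy
      exact ⟨l, fun _ => hl⟩
    · exact ⟨0, fun h => absurd h hy⟩
  choose l hl using hl'
  set U : Ultrafilter (Finset A × ℕ) := Ultrafilter.of atTop with hU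
  have hUle : (U : Filter (Finset A × ℕ)) ≤ atTop := Ultrafilter.of_le atTop
  have hcc : ∀ i, ‖v * k i * (v * k i)‖ = 1 := fun i => norm_sq_one (hk0 i) (hk1 i)
  have hmem : ∀ y : A, ∀ᶠ i in (U : Filter (Finset A × ℕ)), y ∈ i.1 := by
    intro y
    refine hUle ?_
    filter_upwards [eventually_ge_atTop (({y} : Finset A), 0)] with i hi
    exact hi.1 (Finset.mem_singleton_self y)
  have hnat : Tendsto (fun i : Finset A × ℕ => 1 / ((i.2 : ℝ) + 1)) U (𝓝 0) := by
    have h1 : Tendsto (fun i : Finset A × ℕ => i.2) atTop atTop := by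
      rw [← prod_atTop_atTop_eq]
      exact tendsto_snd
    exact (tendsto_one_div_add_atTop_nhds_zero_nat.comp h1).mono_left hUle
  have hbd : ∀ i y, y ∈ i.1 → ‖l i y‖ ≤ ‖y‖ + 1 := by
    intro i y hy
    have h1 : ‖l i y‖ = ‖l i y • (v * k i * (v * k i))‖ := by rw [norm_smul, hcc, mul_one]
    have h2 : ‖v * k i * y * (v * k i)‖ ≤ ‖y‖ := by
      refine (norm_mul_le _ _).trans ?_
      rw [hk1 i, mul_one]
      refine (norm_mul_le _ _).trans ?_
      rw [hk1 i, one_mul]
    have h3 : 1 / ((i.2 : ℝ) + 1) ≤ 1 := by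
      rw [div_le_one (by positivity)]
      have : (0 : ℝ) ≤ i.2 := by positivity
      linarith
    have h4 := hl i y hy
    have h5 := norm_sub_norm_le (l i y • (v * k i * (v * k i))) (v * k i * y * (v * k i))
    rw [norm_sub_rev] at h5
    rw [h1]
    linarith
  have hlim : ∀ y, ∃ z : ℂ, Tendsto (fun i => l i y) U (𝓝 z) := by
    intro y
    have hK : IsCompact (Metric.closedBall (0 : ℂ) (‖y‖ + 1)) := isCompact_closedBall _ _
    obtain ⟨z, _, hz⟩ := hK.ultrafilter_le_nhds (U.map fun i => l i y) (by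
      rw [Ultrafilter.coe_map, le_principal_iff, mem_map]
      filter_upwards [hmem y] with i hi
      rw [Set.mem_preimage, mem_closedBall_zero_iff]
      exact hbd i y hi)
    exact ⟨z, hz⟩
  choose f hf using hlim
  have hdist : ∀ y, Tendsto (fun i => ‖v * k i * y * (v * k i) - f y • (v * k i * (v * k i))‖) U (𝓝 0) := by
    intro y
    have h1 : Tendsto (fun i => 1 / ((i.2 : ℝ) + 1) + ‖l i y - f y‖) U (𝓝 (0 + 0)) := by
      refine hnat.add ?_
      have := ((hf y).sub_const (f y)).norm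
      simpa using this
    rw [add_zero] at h1
    refine squeeze_zero' (Eventually.of_forall fun i => norm_nonneg _) ?_ h1
    filter_upwards [hmem y] with i hi
    have h2 : v * k i * y * (v * k i) - f y • (v * k i * (v * k i)) =
        (v * k i * y * (v * k i) - l i y • (v * k i * (v * k i))) +
          (l i y - f y) • (v * k i * (v * k i)) := by
      rw [sub_smul]
      abel
    rw [h2]
    refine (norm_add_le _ _).trans ?_
    rw [norm_smul, hcc, mul_one]
    exact add_le_add (hl i y hi) le_rfl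
  have huniq : ∀ z : ℂ, Tendsto (fun i => ‖z • (v * k i * (v * k i))‖) U (𝓝 0) → z = 0 := by
    intro z hz
    have h1 : (fun i => ‖z • (v * k i * (v * k i))‖) = fun _ => ‖z‖ := by
      funext i
      rw [norm_smul, hcc, mul_one]
    rw [h1] at hz
    exact norm_eq_zero.1 (tendsto_nhds_unique tendsto_const_nhds hz)
  have hadd : ∀ y y', f (y + y') = f y + f y' := by
    intro y y'
    rw [← sub_eq_zero]
    apply huniq
    have h1 : Tendsto (fun i => ‖v * k i * (y + y') * (v * k i) - f (y + y') • (v * k i * (v * k i))‖ +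
        (‖v * k i * y * (v * k i) - f y • (v * k i * (v * k i))‖ +
        ‖v * k i * y' * (v * k i) - f y' • (v * k i * (v * k i))‖)) U (𝓝 (0 + (0 + 0))) :=
      (hdist (y + y')).add ((hdist y).add (hdist y'))
    rw [add_zero, add_zero] at h1
    refine squeeze_zero (fun i => norm_nonneg _) (fun i => ?_) h1
    have h2 : (f (y + y') - (f y + f y')) • (v * k i * (v * k i)) =
        -(v * k i * (y + y') * (v * k i) - f (y + y') • (v * k i * (v * k i))) +
        ((v * k i * y * (v * k i) - f y • (v * k i * (v * k i))) +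
        (v * k i * y' * (v * k i) - f y' • (v * k i * (v * k i)))) := by
      rw [sub_smul, add_smul, mul_add, add_mul]
      abel
    rw [h2]
    refine (norm_add_le _ _).trans ?_
    rw [norm_neg]
    exact add_le_add le_rfl (norm_add_le _ _)
  have hsmul : ∀ (a : ℂ) y, f (a • y) = a * f y := by
    intro a y
    rw [← sub_eq_zero]
    apply huniq
    have h1 : Tendsto (fun i => ‖v * k i * (a • y) * (v * k i) - f (a • y) • (v * k i * (v * k i))‖ +
        ‖a‖ * ‖v * k i * y * (v * k i) - f y • (v * k i * (v * k i))‖) U (𝓝 (0 + ‖a‖ * 0)) :=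
      (hdist (a • y)).add ((hdist y).const_mul ‖a‖)
    rw [mul_zero, add_zero] at h1
    refine squeeze_zero (fun i => norm_nonneg _) (fun i => ?_) h1
    have h2 : (f (a • y) - a * f y) • (v * k i * (v * k i)) =
        -(v * k i * (a • y) * (v * k i) - f (a • y) • (v * k i * (v * k i))) +
        a • (v * k i * y * (v * k i) - f y • (v * k i * (v * k i))) := by
      rw [sub_smul, mul_smul, smul_sub, mul_smul_comm, smul_mul_assoc]
      abel
    rw [h2]
    refine (norm_add_le _ _).trans ?_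
    rw [norm_neg, norm_smul]
  have hnorm : ∀ y, ‖f y‖ ≤ 1 * ‖y‖ := by
    intro y
    rw [one_mul]
    have h1 : Tendsto (fun i => ‖v * k i * y * (v * k i) - f y • (v * k i * (v * k i))‖ + ‖y‖) U
        (𝓝 (0 + ‖y‖)) := (hdist y).add_const ‖y‖
    rw [zero_add] at h1
    refine ge_of_tendsto h1 (Eventually.of_forall fun i => ?_)
    have h2 : ‖f y‖ = ‖f y • (v * k i * (v * k i))‖ := by rw [norm_smul, hcc, mul_one]
    have h3 : ‖v * k i * y * (v * k i)‖ ≤ ‖y‖ := by
      refine (norm_mul_le _ _).trans ?_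
      rw [hk1 i, mul_one]
      refine (norm_mul_le _ _).trans ?_
      rw [hk1 i, one_mul]
    have h5 := norm_sub_norm_le (f y • (v * k i * (v * k i))) (v * k i * y * (v * k i))
    rw [norm_sub_rev] at h5
    linarith
  refine ⟨LinearMap.mkContinuous
    { toFun := f, map_add' := hadd, map_smul' := fun a y => by rw [hsmul]; rfl } 1 hnorm, ?_⟩
  intro F ε hε
  have h1 : ∀ᶠ i in (U : Filter (Finset A × ℕ)), ∀ y ∈ F,
      ‖v * k i * y * (v * k i) - f y • (v * k i * (v * k i))‖ < ε := by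
    rw [eventually_all_finset]
    intro y _
    exact (hdist y).eventually (gt_mem_nhds hε)
  obtain ⟨i, hi⟩ := h1.exists
  exact ⟨k i, hk0 i, hk1 i, fun y hy => (hi y hy).le⟩

/-- a nonzero self-adjoint element, positive part -/
theorem exists_pos_part {h : A} (hh : IsSelfAdjoint h) (h0 : h⁺ ≠ 0) :
    ∃ (η : ℝ) (v : A), 0 < η ∧ v ≠ 0 ∧ η • (star v * v) ≤ star v * h * v := by
  have hp : 0 ≤ h⁺ := CFC.posPart_nonneg h
  have hps : IsSelfAdjoint h⁺ := hp.isSelfAdjoint
  have hn : 0 < ‖h⁺‖ := norm_pos_iff.2 h0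
  have h1 : ¬ star h⁺ * h * h⁺ ≤ (‖h⁺‖ / 2) • (star h⁺ * h⁺) := by
    intro hle
    rw [hps.star_eq, pos_cube h hh] at hle
    have h2 : 0 ≤ h⁺ * h⁺ * h⁺ := by
      have := star_left_conjugate_nonneg hp h⁺
      rwa [hps.star_eq] at this
    have h3 := CStarAlgebra.norm_le_norm_of_nonneg_of_le (ha := h2) (hab := hle)
    rw [norm_smul, Real.norm_of_nonneg (by linarith)] at h3
    have h4 : ‖h⁺ * h⁺‖ = ‖h⁺‖ * ‖h⁺‖ := by
      have := CStarRing.norm_star_mul_self (x := h⁺)
      rwa [hps.star_eq] at this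
    have h5 : ‖h⁺ * h⁺ * (h⁺ * h⁺)‖ = ‖h⁺ * h⁺‖ * ‖h⁺ * h⁺‖ := by
      have := CStarRing.norm_star_mul_self (x := h⁺ * h⁺)
      rwa [star_mul, hps.star_eq] at this
    have h6 : ‖h⁺ * h⁺ * (h⁺ * h⁺)‖ ≤ ‖h⁺ * h⁺ * h⁺‖ * ‖h⁺‖ := by
      rw [← mul_assoc]
      exact norm_mul_le _ _
    rw [h5, h4] at h6
    rw [h4] at h3
    have h7 : ‖h⁺‖ * ‖h⁺‖ * (‖h⁺‖ * ‖h⁺‖) ≤ ‖h⁺‖ / 2 * (‖h⁺‖ * ‖h⁺‖) * ‖h⁺‖ :=
      h6.trans (mul_le_mul_of_nonneg_right h3 hn.le)
    have h8 : 0 < ‖h⁺‖ * ‖h⁺‖ * (‖h⁺‖ * ‖h⁺‖) := by positivity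
    nlinarith
  obtain ⟨e, he, hge⟩ := exists_ge hh h1
  exact ⟨‖h⁺‖ / 2, h⁺ * e, by linarith, he, hge⟩

theorem exists_excisable_pos {h : A} (hh : IsSelfAdjoint h) (h0 : h⁺ ≠ 0) :
    ∃ φ : A →L[ℂ] ℂ, Excisable φ ∧ φ h ≠ 0 := by
  obtain ⟨η, v, hη, hv, hge⟩ := exists_pos_part hh h0
  obtain ⟨φ, hφ⟩ := exists_functional hv
  refine ⟨φ, fun F ε hε => ?_, fun hz => ?_⟩
  · obtain ⟨k, hk, hk1, hk2⟩ := hφ F ε hε
    exact ⟨v * k, hk.isSelfAdjoint, hk1, hk2⟩
  · obtain ⟨k, hk, hk1, hk2⟩ := hφ {h} (η / 2) (by linarith)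
    have h1 := hk2 h (Finset.mem_singleton_self h)
    rw [hz, zero_smul, sub_zero] at h1
    have h2 := conj_le (x := k) hge
    rw [hk.isSelfAdjoint.star_eq] at h2
    have h3 : 0 ≤ η • (v * k * (v * k)) := by
      have := star_mul_self_nonneg (v * k)
      rw [hk.isSelfAdjoint.star_eq] at this
      exact smul_nonneg hη.le this
    have h4 := CStarAlgebra.norm_le_norm_of_nonneg_of_le (ha := h3) (hab := h2)
    rw [norm_smul, Real.norm_of_nonneg hη.le, norm_sq_one hk hk1, mul_one] at h4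
    linarith

omit [PartialOrder A] [StarOrderedRing A] in
/-- excisable functionals are real on self-adjoint elements -/
theorem Excisable.conj {φ : A →L[ℂ] ℂ} (hφ : Excisable φ) {h : A} (hh : IsSelfAdjoint h) :
    (starRingEnd ℂ) (φ h) = φ h := by
  by_contra hne
  have h0 : 0 < ‖φ h - (starRingEnd ℂ) (φ h)‖ := norm_pos_iff.2 (sub_ne_zero.2 (Ne.symm hne))
  obtain ⟨c, hc, hc1, hc2⟩ := hφ {h} (‖φ h - (starRingEnd ℂ) (φ h)‖ / 4) (by linarith)
  have h1 := hc2 h (Finset.mem_singleton_self h)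
  have h2 : ‖c * h * c - (starRingEnd ℂ) (φ h) • (c * c)‖ ≤ ‖φ h - (starRingEnd ℂ) (φ h)‖ / 4 := by
    rw [← norm_star] at h1
    rw [star_sub, star_smul, star_mul, star_mul, star_mul, hc.star_eq, hh.star_eq, ← mul_assoc] at h1
    exact h1
  have h3 : (φ h - (starRingEnd ℂ) (φ h)) • (c * c) =
      (c * h * c - (starRingEnd ℂ) (φ h) • (c * c)) - (c * h * c - φ h • (c * c)) := by
    rw [sub_smul]
    abel
  have h4 : ‖c * c‖ = 1 := by
    have h := CStarRing.norm_star_mul_self (x := c)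
    rw [hc.star_eq, hc1] at h
    rw [h, one_mul]
  have h5 : ‖φ h - (starRingEnd ℂ) (φ h)‖ = ‖(φ h - (starRingEnd ℂ) (φ h)) • (c * c)‖ := by
    rw [norm_smul, h4, mul_one]
  have h6 := norm_sub_le (c * h * c - (starRingEnd ℂ) (φ h) • (c * c)) (c * h * c - φ h • (c * c))
  rw [← h3, ← h5] at h6
  linarith

theorem exists_excisable_sa {h : A} (hh : IsSelfAdjoint h) (h0 : h ≠ 0) :
    ∃ φ : A →L[ℂ] ℂ, Excisable φ ∧ φ h ≠ 0 := by
  by_cases h1 : h⁺ = 0
  · have h2 : (-h)⁺ ≠ 0 := by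
      intro h3
      rw [CFC.posPart_neg] at h3
      apply h0
      rw [← CFC.posPart_sub_negPart h hh, h1, h3, sub_zero]
    obtain ⟨φ, hφ, hne⟩ := exists_excisable_pos hh.neg h2
    exact ⟨φ, hφ, fun h => hne (by rw [map_neg, h, neg_zero])⟩
  · exact exists_excisable_pos hh h1

end

/-- Excisable functionals separate the points of a C*-algebra. -/
theorem exists_excisable {A : Type u} [NonUnitalCStarAlgebra A] {x : A} (hx : x ≠ 0) :
    ∃ φ : A →L[ℂ] ℂ, Excisable φ ∧ φ x ≠ 0 := by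
  let _ : PartialOrder A := CStarAlgebra.spectralOrder A
  have _ : StarOrderedRing A := CStarAlgebra.spectralOrderedRing A
  have hdec : x = (realPart x : A) + Complex.I • (imaginaryPart x : A) :=
    (realPart_add_I_smul_imaginaryPart x).symm
  by_cases h1 : (realPart x : A) = 0
  · have h2 : (imaginaryPart x : A) ≠ 0 := by
      intro h2
      apply hx
      rw [hdec, h1, h2, smul_zero, add_zero]
    obtain ⟨φ, hφ, hne⟩ := exists_excisable_sa (imaginaryPart x).2 h2
    refine ⟨φ, hφ, ?_⟩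
    rw [hdec, h1, zero_add, map_smul, smul_eq_mul]
    exact mul_ne_zero Complex.I_ne_zero hne
  · obtain ⟨φ, hφ, hne⟩ := exists_excisable_sa (realPart x).2 h1
    refine ⟨φ, hφ, fun h => hne ?_⟩
    rw [hdec, map_add, map_smul, smul_eq_mul] at h
    have h3 := hφ.conj (realPart x).2
    have h4 := hφ.conj (imaginaryPart x).2
    rw [Complex.conj_eq_iff_im] at h3 h4
    apply Complex.ext
    · have := congrArg Complex.re h
      simp only [Complex.add_re, Complex.mul_re, Complex.I_re, zero_mul, Complex.I_im, one_mul, h4,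
        sub_zero, add_zero, Complex.zero_re] at this
      rw [this, Complex.zero_re]
    · rw [h3, Complex.zero_im]

end Pool.Agent.Helper61.SS
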