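import Pool.Agent.Helper56.SS.FWD
import Pool.Agent.Helper9.SS.KEY
import Pool.Agent.Helper91.SS.CROSS
import Pool.Agent.Helper83.SS.SR1
import Pool.Agent.Helper8.SS.QN
import Pool.Agent.Helper96.SS.EXT
import Pool.Agent.Helper14.SS.REP
import Pool.Agent.Helper39.SS.HULL
import Pool.Agent.Helper19.SS.APT

/-!
# Project SS (MP_552bae_an): the main theorem from its parts
-/

set_option autoImplicit false

namespace Pool.Agent.Helper61.SS

open TensorProduct Filter Topology

universe u v w x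

theorem main_of (hSLI : G_SLI.{u, u, u}) (hSR2 : G_SR2.{u, u}) (hEXI : G_EXI.{u, u})
    (hCONV : G_CONV.{u}) : G_MAIN.{u} := by
  intro A _
  refine ⟨?_, ?_, ?_⟩
  · intro hA B _ _ _ _ _ hB C _ _ _ _ _ j hj
    exact Helper56.SS.gFWD Helper9.SS.gKEY Helper91.SS.gCROSS Helper83.SS.gSR1 hSR2
      Helper8.SS.gQN Helper96.SS.gEXT Helper96.SS.gEXT Helper14.SS.gREP hSLI A B C j hj hA hB
  · intro hA
    exact hCONV Helper14.SS.gREP Helper96.SS.gEXT A (Helper19.SS.gAPT Helper39.SS.gHULL A hA)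
  · intro B _ _ _ _ _
    exact hEXI A B

end Pool.Agent.Helper61.SS
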